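import Pool.Agent.N566.PS.Find
import Pool.Agent.Y481.DR.Final
import Pool.Agent.N561.V.FinE

/-!
# Rings of trees with small vertices: the parts together
-/

set_option autoImplicit false

namespace Pool.Agent.N566.PS

open Pool.Agent.Y481.DR
open Pool.Agent.N561

/-- the growth rate, general types of small vertices -/
theorem findv {Ty : ℕ → ℤ → Prop}
    (hT : ∀ n a, Ty n a → 1 ≤ n → TOK (fun _ _ => False) n a) : S_FINDV Ty :=
  findv_of exd' Pool.Agent.Y407.DR.t_scl mainf (truv f_vf f_vt hT f_root) geodv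
    Pool.Agent.Y710.CG.s0p

/-- the types of the small vertices -/
def TyS (n : ℕ) (a : ℤ) : Prop :=
  (a ≤ 0 ∧ 4 ≤ (n : ℤ) + |a|) ∨ (n = 3 ∧ a = 0) ∨ (n = 1 ∧ a = -2) ∨ (0 < a ∧ 5 ≤ (n : ℤ) + a)

/-- all types are settled -/
theorem tok_s : ∀ n a, TyS n a → 1 ≤ n → TOK (fun _ _ => False) n a := by
  intro n a h hn
  rcases h with ⟨h1, h2⟩ | ⟨rfl, rfl⟩ | ⟨rfl, rfl⟩ | ⟨h1, h2⟩
  · rw [abs_of_nonpos h1] at h2
    exact tok_of_krk (f_krk n a hn h1 (by linarith))
  · exact tok_of_krk f_hub3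
  · exact tok_of_lok f_clasp (fun h => h)
  · exact tok_of_krk (f_posk' n a hn h1 h2)

/-- the growth rate -/
theorem findv_s : S_FINDV TyS := findv tok_s

end Pool.Agent.N566.PS
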