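import Pool.Agent.N566.PS.Dg
import Pool.Agent.N561.V.Main2

/-!
# Rings of trees with small vertices: the functions of the trees

The induction over the tree is that of `Pool.Agent.N561.V.Main2` (`main2`).
-/

set_option autoImplicit false
set_option maxHeartbeats 1000000

namespace Pool.Agent.N566.PS

open Finset Filter Topology Metric
open Pool.Agent.W711.HT hiding XX
open Pool.Agent.TH563.UV
open Pool.Agent.TH563.V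
open Pool.Agent.TH563.Z (shape_nc kd_kappa)
open Pool.Agent.W293.HT
open Pool.Agent.N561
open scoped Real

/-- the functions of the trees: roots near `0`, large vertices and isolated small vertices of the
types `Ty` -/
def S_TRUV (Ty : ℕ → ℤ → Prop) : Prop := ∃ (ρ τ κ c : ℝ) (s dl : ℂ → ℂ → ℂ), KD ρ τ κ c s dl ∧
  ∃ (kf : Bool → ℕ → ℤ → ℕ) (cen : ℕ → ℂ) (S : ℕ → ℂ → ℂ → ℂ) (Dn : ℕ),
  (∀ n a, kf true n a = 0) ∧ (∀ b n a, kf b n a < Dn) ∧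
  (∀ b n a, kf b n a ≠ 0 → ∃ g : ℝ, 0 < g ∧ ∀ ψ φ : ℂ, ‖ψ‖ ≤ g → ‖φ - cen (kf b n a)‖ ≤ g →
    ∃ δ : ℂ, EFW (S (kf b n a)) ψ φ δ) ∧
  ∀ g : ℝ, 0 < g → ∃ K : ℝ, 0 < K ∧ ∀ Dc : ℕ, ∃ R₀ B₀ : ℝ, 0 < R₀ ∧ R₀ ≤ τ ∧ 0 < B₀ ∧
    ∀ t : Tb, OkT2 Ty K true t → t.nc ≤ Dc → ∃ F : ℂ → ℂ,
      Pool.Agent.Y481.DR.DG R₀ B₀ (fun N ψ => XX t N ψ * Complex.exp (-(N * F 0)))
        (fun ψ => F ψ - F 0) ∧
      ∀ ψ ∈ Rc R₀ R₀, ∃ p : PB, p.shape = t ∧ p.rz = ψ ∧ CG kf cen S s ρ τ g 0 p ∧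
        F ψ = vg kf S s 0 p ∧ HasDerivAt F (gg kf S s 0 p) ψ

/-- **TRUV** -/
theorem truv {Ty Rt : ℕ → ℤ → Prop} (hVF : S_VF) (hVT : S_VT)
    (hT : ∀ n a, Ty n a → 1 ≤ n → TOK Rt n a) (hRT : S_ROOT) : S_TRUV Ty := by
  classical
  have hπ := Real.pi_pos
  obtain ⟨ρ₀, τ₀, κ₀, c₀, s, dl, hK⟩ := Pool.Agent.W719.AR.f_KER
  have hρ₀ := hK.hρ.1
  have hτ₀ := hK.hτ.1
  have hc₀ := hK.hc
  have hκ₀ := hK.hκ.1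
  obtain ⟨C₀, hC₀⟩ := hK.sbd
  have h00 : (0 : ℂ) ∈ Rc (3 * ρ₀) (3 * τ₀) := by
    refine ⟨?_, ?_⟩
    · rw [Complex.zero_re, abs_zero]; linarith
    · rw [Complex.zero_im, abs_zero]; linarith
  have hC00 : 0 ≤ C₀ := (norm_nonneg _).trans (hC₀ 0 h00 0 h00)
  obtain ⟨ε₀, hε₀, hε₁, hε₂⟩ : ∃ ε₀ : ℝ, 0 < ε₀ ∧ ε₀ ≤ 1 ∧ ε₀ ≤ c₀ * τ₀ ^ 2 / 16 :=
    ⟨min 1 (c₀ * τ₀ ^ 2 / 16), lt_min one_pos (by positivity), min_le_left _ _, min_le_right _ _⟩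
  obtain ⟨p0, p1⟩ := f_PRU ρ₀ τ₀ κ₀ c₀ s dl hK ε₀ hε₀
  obtain ⟨Cs, hEs⟩ := ed_s hK
  -- the types
  have htype : ∀ k : ℕ, ∃ (z₀ : ℂ) (S : ℂ → ℂ → ℂ), Ty (nk2 k) (ak2 k) → 1 ≤ nk2 k →
      GEOS z₀ S ∧ ∀ g : ℝ, 0 < g →
      ∃ (U : Set ℂ) (P : ℕ → (ℕ → ℂ → ℂ) → (ℂ → ℂ) → Prop) (C : (ℕ → ℂ → ℂ) → (ℂ → ℂ) → Prop)
        (r₂ c₁ C₁ : ℝ), 0 < r₂ ∧ 0 < c₁ ∧ 0 < C₁ ∧
        (KPG (nk2 k) (ak2 k) z₀ g S U P C r₂ c₁ C₁ ∨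
          (nk2 k = 1 ∧ LPG (ak2 k) z₀ g S r₂ c₁ C₁)) ∧
        (Rt (nk2 k) (ak2 k) → KPG (nk2 k) (ak2 k) z₀ g S U P C r₂ c₁ C₁ ∧
          RTG (nk2 k) (ak2 k) z₀ g U P) := by
    intro k
    by_cases hk : Ty (nk2 k) (ak2 k) ∧ 1 ≤ nk2 k
    · obtain ⟨z₀, S, h1, h2⟩ := hT _ _ hk.1 hk.2
      exact ⟨z₀, S, fun _ _ => ⟨h1, h2⟩⟩
    · exact ⟨0, fun _ _ => 0, fun h1 h2 => absurd ⟨h1, h2⟩ hk⟩
  choose cen S hS using htype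
  -- the medium vertices
  have hCl : 0 < 8 * (1 + 3 * C₀) / τ₀ ^ 2 := by positivity
  obtain ⟨KM, hKM0, hmed⟩ := kidl hVF hVT hK hε₀ hEs (r₀ := 1 / 10) (by norm_num)
    (κ₁ := κ₀) (c₁ := c₀ / 2) (C₁ := 8 * (1 + 3 * C₀) / τ₀ ^ 2) hκ₀ (by positivity) hCl le_rfl
    le_rfl
  obtain ⟨KR, hKR0, hroM⟩ := hRT ρ₀ τ₀ κ₀ (c₀ / 2) (8 * (1 + 3 * C₀) / τ₀ ^ 2) hρ₀ hK.hρ.2 hτ₀
    hK.hτ.2 hκ₀ (by positivity) hCl (1 / 10) (by norm_num)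
  obtain ⟨K₀, hK₀0, hK₀M, hK₀R⟩ : ∃ K₀ : ℝ, 0 < K₀ ∧ KM ≤ K₀ ∧ KR ≤ K₀ :=
    ⟨max KM KR, lt_max_of_lt_left hKM0, le_max_left _ _, le_max_right _ _⟩
  obtain ⟨D, hD0, hD⟩ := kf2_lt (Ty := Ty) K₀
  have hadm : ∀ b n a, kf2 Ty K₀ b n a ≠ 0 → Ty (nk2 (kf2 Ty K₀ b n a)) (ak2 (kf2 Ty K₀ b n a)) ∧
      1 ≤ nk2 (kf2 Ty K₀ b n a) := by
    intro b n a hk
    obtain ⟨-, h1, h2, h3, h4⟩ := kf2_spec hk
    rw [h1, h2]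
    exact ⟨h3, h4⟩
  refine ⟨ρ₀, τ₀, κ₀, c₀, s, dl, hK, kf2 Ty K₀, cen, S, D, kf2_true Ty K₀, hD,
    (fun b n a hk => (hS _ (hadm b n a hk).1 (hadm b n a hk).2).1), fun g hg => ?_⟩
  -- the packages
  have hhub : ∀ k : ℕ, ∃ (U : Set ℂ) (P : ℕ → (ℕ → ℂ → ℂ) → (ℂ → ℂ) → Prop)
      (C : (ℕ → ℂ → ℂ) → (ℂ → ℂ) → Prop) (r₂ c₁ C₁ : ℝ), 0 < r₂ ∧ 0 < c₁ ∧ 0 < C₁ ∧
      (Ty (nk2 k) (ak2 k) → 1 ≤ nk2 k →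
        (KPG (nk2 k) (ak2 k) (cen k) g (S k) U P C r₂ c₁ C₁ ∨
          (nk2 k = 1 ∧ LPG (ak2 k) (cen k) g (S k) r₂ c₁ C₁)) ∧
        (Rt (nk2 k) (ak2 k) → KPG (nk2 k) (ak2 k) (cen k) g (S k) U P C r₂ c₁ C₁ ∧
          RTG (nk2 k) (ak2 k) (cen k) g U P)) := by
    intro k
    by_cases hk : Ty (nk2 k) (ak2 k) ∧ 1 ≤ nk2 k
    · obtain ⟨U, P, C, r₂, c₁, C₁, h1, h2, h3, h4⟩ := (hS k hk.1 hk.2).2 g hg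
      exact ⟨U, P, C, r₂, c₁, C₁, h1, h2, h3, fun _ _ => h4⟩
    · exact ⟨∅, fun _ _ _ => True, fun _ _ => True, 1, 1, 1, one_pos, one_pos, one_pos,
        fun h1 h2 => absurd ⟨h1, h2⟩ hk⟩
  choose U P C r₂ cs Cs' hr₂ hcs hCs hh using hhub
  -- the small scale
  obtain ⟨e1, he10, he1⟩ := fin_pos (range D) r₂ (fun k _ => hr₂ k)
  obtain ⟨e, he0, he3, heρ, heτ, heg⟩ : ∃ e : ℝ, 0 < e ∧ 3 * e ≤ e1 ∧ e ≤ ρ₀ ∧ e ≤ τ₀ ∧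
      3 * e + 3 * e ≤ g := by
    refine ⟨min (e1 / 3) (min (min ρ₀ τ₀) (g / 6)), ?_, ?_, ?_, ?_, ?_⟩
    · exact lt_min (by positivity) (lt_min (lt_min hρ₀ hτ₀) (by positivity))
    · have := min_le_left (e1 / 3) (min (min ρ₀ τ₀) (g / 6))
      linarith
    · exact (min_le_right _ _).trans ((min_le_left _ _).trans (min_le_left _ _))
    · exact (min_le_right _ _).trans ((min_le_left _ _).trans (min_le_right _ _))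
    · have : min (e1 / 3) (min (min ρ₀ τ₀) (g / 6)) ≤ g / 6 :=
        (min_le_right _ _).trans (min_le_right _ _)
      linarith
  have he14 : e ≤ 1 / 4 := heρ.trans hK.hρ.2
  have he3k : ∀ k, k < D → 3 * e ≤ r₂ k := fun k hk => he3.trans (he1 k (mem_range.2 hk))
  have hstep : ∀ k : ℕ, ∃ κ₁ : ℝ, 0 < κ₁ ∧ (k < D →
      (KPG (nk2 k) (ak2 k) (cen k) g (S k) (U k) (P k) (C k) (r₂ k) (cs k) (Cs' k) →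
      ∀ (X : ℕ → ℂ → ℂ) (Φ : ℂ → ℂ), P k (nk2 k - 1) X Φ → ∃ F zs : ℂ → ℂ,
      GoodV e e κ₁ (cs k) (Cs' k) 1 (stp (ak2 k) X) F ∧
      ∀ ψ ∈ Rc (3 * e) (3 * e), ‖zs ψ - cen k‖ ≤ g ∧ zs ψ ∈ U k ∧
        Complex.I * (ak2 k) * zs ψ / (2 * π) + Complex.I + deriv Φ (zs ψ) +
          deriv (fun w => S k ψ w) (zs ψ) = 0 ∧
        F ψ = qq (ak2 k) Φ (zs ψ) + S k ψ (zs ψ) ∧
        HasDerivAt F (deriv (fun w => S k w (zs ψ)) ψ) ψ) ∧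
      (LPG (ak2 k) (cen k) g (S k) (r₂ k) (cs k) (Cs' k) → ∃ F zs : ℂ → ℂ,
      GoodV e e κ₁ (cs k) (Cs' k) 1 (stp (ak2 k) fun _ _ => 1) F ∧
      ∀ ψ ∈ Rc (3 * e) (3 * e), ‖zs ψ - cen k‖ ≤ g ∧
        Complex.I * (ak2 k) * zs ψ / (2 * π) + Complex.I + deriv (fun w => S k ψ w) (zs ψ) = 0 ∧
        F ψ = qq (ak2 k) (fun _ => 0) (zs ψ) + S k ψ (zs ψ) ∧
        HasDerivAt F (deriv (fun w => S k w (zs ψ)) ψ) ψ)) := by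
    intro k
    by_cases hkD : k < D
    · obtain ⟨κa, ha0, ha⟩ : ∃ κ₁ : ℝ, 0 < κ₁ ∧
          (KPG (nk2 k) (ak2 k) (cen k) g (S k) (U k) (P k) (C k) (r₂ k) (cs k) (Cs' k) →
          ∀ (X : ℕ → ℂ → ℂ) (Φ : ℂ → ℂ), P k (nk2 k - 1) X Φ → ∃ F zs : ℂ → ℂ,
          GoodV e e κ₁ (cs k) (Cs' k) 1 (stp (ak2 k) X) F ∧
          ∀ ψ ∈ Rc (3 * e) (3 * e), ‖zs ψ - cen k‖ ≤ g ∧ zs ψ ∈ U k ∧
            Complex.I * (ak2 k) * zs ψ / (2 * π) + Complex.I + deriv Φ (zs ψ) +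
              deriv (fun w => S k ψ w) (zs ψ) = 0 ∧
            F ψ = qq (ak2 k) Φ (zs ψ) + S k ψ (zs ψ) ∧
            HasDerivAt F (deriv (fun w => S k w (zs ψ)) ψ) ψ) := by
        by_cases h : KPG (nk2 k) (ak2 k) (cen k) g (S k) (U k) (P k) (C k) (r₂ k) (cs k) (Cs' k)
        · obtain ⟨κ₁, h1, h2⟩ := h.step e e he0 le_rfl (he3k k hkD)
          exact ⟨κ₁, h1, fun _ => h2⟩
        · exact ⟨1, one_pos, fun h' => absurd h' h⟩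
      obtain ⟨κb, hb0, hb⟩ : ∃ κ₁ : ℝ, 0 < κ₁ ∧
          (LPG (ak2 k) (cen k) g (S k) (r₂ k) (cs k) (Cs' k) → ∃ F zs : ℂ → ℂ,
          GoodV e e κ₁ (cs k) (Cs' k) 1 (stp (ak2 k) fun _ _ => 1) F ∧
          ∀ ψ ∈ Rc (3 * e) (3 * e), ‖zs ψ - cen k‖ ≤ g ∧
            Complex.I * (ak2 k) * zs ψ / (2 * π) + Complex.I +
              deriv (fun w => S k ψ w) (zs ψ) = 0 ∧
            F ψ = qq (ak2 k) (fun _ => 0) (zs ψ) + S k ψ (zs ψ) ∧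
            HasDerivAt F (deriv (fun w => S k w (zs ψ)) ψ) ψ) := by
        by_cases h : LPG (ak2 k) (cen k) g (S k) (r₂ k) (cs k) (Cs' k)
        · obtain ⟨κ₁, h1, h2⟩ := h e e he0 le_rfl (he3k k hkD)
          exact ⟨κ₁, h1, fun _ => h2⟩
        · exact ⟨1, one_pos, fun h' => absurd h' h⟩
      refine ⟨min κa κb, lt_min ha0 hb0, fun _ => ⟨fun h X Φ hX => ?_, fun h => ?_⟩⟩
      · obtain ⟨F, zs, h1, h2⟩ := ha h X Φ hX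
        exact ⟨F, zs, gv_mono h1 (min_le_left _ _) le_rfl le_rfl, h2⟩
      · obtain ⟨F, zs, h1, h2⟩ := hb h
        exact ⟨F, zs, gv_mono h1 (min_le_right _ _) le_rfl le_rfl, h2⟩
    · exact ⟨1, one_pos, fun h1 => absurd h1 hkD⟩
  choose κk₁ hκk hst using hstep
  obtain ⟨km, hkm0, hkm⟩ := fin_pos (range D) κk₁ (fun k _ => hκk k)
  obtain ⟨cm, hcm0, hcm⟩ := fin_pos (range D) cs (fun k _ => hcs k)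
  obtain ⟨CM, hCM0, hCM⟩ := fin_bdd (range D) Cs'
  obtain ⟨c₁, hc₁0, hc₁m, hc₁c⟩ : ∃ c₁ : ℝ, 0 < c₁ ∧ c₁ ≤ cm ∧ c₁ ≤ c₀ / 2 :=
    ⟨min cm (c₀ / 2), lt_min hcm0 (by positivity), min_le_left _ _, min_le_right _ _⟩
  obtain ⟨κs, hκs0, hκsm, hκs₀, hκse⟩ : ∃ κs : ℝ, 0 < κs ∧ κs ≤ km ∧ κs ≤ κ₀ ∧
      κs / 2 < c₀ / 2 / 2 * e ^ 2 := by
    refine ⟨min km (min κ₀ (c₀ / 4 * e ^ 2)), ?_, min_le_left _ _,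
      (min_le_right _ _).trans (min_le_left _ _), ?_⟩
    · exact lt_min hkm0 (lt_min hκ₀ (by positivity))
    · have h1 : min km (min κ₀ (c₀ / 4 * e ^ 2)) ≤ c₀ / 4 * e ^ 2 :=
        (min_le_right _ _).trans (min_le_right _ _)
      have h2 : 0 < c₀ * e ^ 2 := by positivity
      linarith
  obtain ⟨C₁, hC₁0, hC₁M, hC₁c⟩ : ∃ C₁ : ℝ, 0 < C₁ ∧ CM ≤ C₁ ∧ 8 * (1 + 3 * C₀) / τ₀ ^ 2 ≤ C₁ :=
    ⟨max CM (8 * (1 + 3 * C₀) / τ₀ ^ 2), lt_max_of_lt_left hCM0, le_max_left _ _, le_max_right _ _⟩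
  obtain ⟨r₀, hr₀0, hr₀a, hr₀g⟩ : ∃ r₀ : ℝ, 0 < r₀ ∧ r₀ ≤ 1 / 10 ∧ r₀ ≤ g :=
    ⟨min (1 / 10) g, lt_min (by norm_num) hg, min_le_left _ _, min_le_right _ _⟩
  -- the large vertices
  obtain ⟨κe, hκe0, hκe1, hκe2⟩ : ∃ κe : ℝ, 0 < κe ∧ κe ≤ κ₀ ∧ κe < c₀ / 2 * e ^ 2 := by
    refine ⟨min κ₀ (c₀ / 4 * e ^ 2), lt_min hκ₀ (by positivity), min_le_left _ _, ?_⟩
    have h1 : min κ₀ (c₀ / 4 * e ^ 2) ≤ c₀ / 4 * e ^ 2 := min_le_right _ _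
    have h2 : 0 < c₀ * e ^ 2 := by positivity
    linarith
  have hEs2 := ed_restrict hEs he0 heρ he0 heτ le_rfl hκe0 hκe1 hκe2
  obtain ⟨KA, hKA0, hkidA⟩ := kidl hVF hVT hK hε₀ hEs2 hr₀0 hκs0 hc₁0 hC₁0 heρ heτ
  have hkidk : ∀ k : ℕ, ∃ K : ℝ, 0 < K ∧ (k < D →
      KPG (nk2 k) (ak2 k) (cen k) g (S k) (U k) (P k) (C k) (r₂ k) (cs k) (Cs' k) →
      ∀ (t : ℕ) (X : ℕ → ℂ → ℂ) (F : ℂ → ℂ), GoodV e e κs c₁ C₁ t X F →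
      ∀ (b : Bool) (a' : ℤ), (b = false → K ^ 2 ≤ ((t + 1 : ℕ) : ℝ) ^ 2 + (a' : ℝ) ^ 2) →
      ∃ F' zs : ℂ → ℂ, C k (stpb b a' X) F' ∧
        ∀ φ ∈ U k, zs φ ∈ Rc (3 * e) (3 * e) ∧ ‖zs φ‖ ≤ r₀ ∧ (b = true → zs φ = 0) ∧
          (b = false → CPu e e r₀ (zs φ) ∧ Complex.I * a' * zs φ / (2 * π) + Complex.I +
            deriv F (zs φ) + deriv (fun w => S k w φ) (zs φ) = 0) ∧
          F' φ = vt b a' (zs φ) + F (zs φ) + S k (zs φ) φ ∧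
          HasDerivAt F' (deriv (fun w => S k (zs φ) w) φ) φ) := by
    intro k
    by_cases hk : k < D ∧
        KPG (nk2 k) (ak2 k) (cen k) g (S k) (U k) (P k) (C k) (r₂ k) (cs k) (Cs' k)
    · obtain ⟨K, hK0, h1⟩ := hk.2.kid e r₀ κs c₁ C₁ he0 (he3k k hk.1) hr₀0 hκs0 hc₁0 hC₁0
      exact ⟨K, hK0, fun _ _ => h1⟩
    · exact ⟨1, one_pos, fun h1 h2 => absurd ⟨h1, h2⟩ hk⟩
  choose Kk hKk0 hkidk using hkidk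
  obtain ⟨KZ, hKZ0, hKZ⟩ := fin_bdd (range D) Kk
  -- the last step
  obtain ⟨KL, hKL0, hlast⟩ := hRT e e κs c₁ C₁ he0 he14 he0 le_rfl hκs0 hc₁0 hC₁0 r₀ hr₀0
  obtain ⟨K, hKK₀, hKA, hKZ', hKL⟩ : ∃ K : ℝ, K₀ ≤ K ∧ KA ≤ K ∧ KZ ≤ K ∧ KL ≤ K :=
    ⟨max (max K₀ KA) (max KZ KL), (le_max_left _ _).trans (le_max_left _ _),
      (le_max_right _ _).trans (le_max_left _ _), (le_max_left _ _).trans (le_max_right _ _),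
      (le_max_right _ _).trans (le_max_right _ _)⟩
  have hK0 : 0 < K := hK₀0.trans_le hKK₀
  -- the induction
  obtain ⟨q, hq⟩ : ∃ q : CQ, q = ⟨ρ₀, τ₀, κ₀, ε₀, e, e, κs, c₁, C₁, g⟩ := ⟨_, rfl⟩
  have hind := fun t => main_ind2 (Ty := Ty) (kf := kf2 Ty K₀) (K := K)
    (Pv := QV (kf2 Ty K₀) cen S s q) (Pu := QU (kf2 Ty K₀) cen S s q)
    (Hv := HV (kf2 Ty K₀) cen S s q) (Hu := HU (kf2 Ty K₀) cen S s q)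
    (Pz := fun k t => KPG (nk2 k) (ak2 k) (cen k) g (S k) (U k) (P k) (C k) (r₂ k) (cs k) (Cs' k) →
      ∃ Φ : ℂ → ℂ, P k t.nc (XX t) Φ ∧ ∀ φ ∈ U k, CfP' (kf2 Ty K₀) cen S s ρ₀ τ₀ g k t Φ φ)
    (Hz := fun k c => KPG (nk2 k) (ak2 k) (cen k) g (S k) (U k) (P k) (C k) (r₂ k) (cs k) (Cs' k) →
      ∃ F' : ℂ → ℂ, C k (stpb c.bl c.wt (XX c)) F' ∧
        ∀ φ ∈ U k, CfC' (kf2 Ty K₀) cen S s ρ₀ τ₀ g k c F' φ)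
    (by rw [hq]; exact fun b a => qv_zero he0 he0 b a)
    (by rw [hq]; exact fun b a => qu_zero p0 b a)
    (fun k b a h => ⟨fun _ => 0, h.zero, fun φ _ => cfp_zero' k b a φ⟩)
    (by rw [hq]; exact fun t c h1 h2 => qv_succ he0 he0 h1 h2)
    (by rw [hq]; exact fun t c h1 h2 => qu_succ p1 h1 h2)
    (by
      intro k t c h1 h2 h
      obtain ⟨Φ, a1, a2⟩ := h1 h
      obtain ⟨F', b1, b2⟩ := h2 h
      exact ⟨fun φ => Φ φ + F' φ, h.succ _ _ _ _ _ a1 b1,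
        fun φ hφ => cfp_succ' (a2 φ hφ) (b2 φ hφ)⟩)
    (by
      rw [hq]
      exact fun c h1 => hv_of_hu hK hε₁ hε₂ hC₀ he0 he0 heρ heτ hκs₀ hκse hc₁c hC₁c h1)
    (by
      rw [hq]
      intro c h1 h2
      refine hu_big2 (K := KA) hr₀a heρ heτ hkidA (kf2_big hK₀0.le hKK₀ h1)
        (fun hf => (pow_le_pow_left₀ hKA0.le hKA 2).trans (h1 hf)) h2)
    (by
      rw [hq]
      intro c h1 h1' h2 h3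
      have h4 := kf2_med h1 h1' (by omega) h2
      have h5 : KM ^ 2 ≤ K₀ ^ 2 := pow_le_pow_left₀ hKM0.le hK₀M 2
      obtain ⟨F, a1, a2⟩ := h3
      have a1' := gv_of_gu hK hε₁ hε₂ hC₀ a1
      obtain ⟨F', zs, b1, b2⟩ := hmed c.nc (XX c) F a1' c.bl c.wt (fun _ => h5.trans h4)
      refine ⟨F', b1, fun ψ hψ => ?_⟩
      obtain ⟨c1, c2, c3, c4, c5, c6⟩ := b2 ψ hψ
      exact cfc_00' h2 (a2 _ c1) c3 (fun hf => c4 hf) c5 c6)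
    (by
      rw [hq]
      rintro k ⟨b, n, a, rfl⟩ hk0 c h1 h2 hk
      have hkD := hD b n a
      have hKk : Kk (kf2 Ty K₀ b n a) ≤ K := (hKZ _ (mem_range.2 hkD)).trans hKZ'
      obtain ⟨F, a1, a2⟩ := h2
      obtain ⟨F', zs, b1, b2⟩ := hkidk _ hkD hk c.nc (XX c) F a1 c.bl c.wt
        (fun hf => (pow_le_pow_left₀ (hKk0 _).le hKk 2).trans (h1 hf))
      refine ⟨F', b1, fun ψ hψ => ?_⟩
      obtain ⟨c1, c2, c3, c4, c5, c6⟩ := b2 ψ hψ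
      exact cfc_k0' hk0 (kf2_big hK₀0.le hKK₀ h1) (a2 _ c1) (c2.trans hr₀g) c3
        (fun hf => ⟨cpu_mono (c4 hf).1 heρ heτ hr₀a, (c4 hf).2⟩) c5 c6)
    (by
      intro c h1 h1' h2 h3
      obtain ⟨s1, s2, s3, s4, s5⟩ := kf2_spec h2
      have hkD := hD c.bl (c.nc + 1) c.wt
      obtain ⟨hpk, -⟩ := hh _ (hadm _ _ _ h2).1 (hadm _ _ _ h2).2
      have hmono : ∀ {X : ℕ → ℂ → ℂ} {F : ℂ → ℂ},
          GoodV e e (κk₁ (kf2 Ty K₀ c.bl (c.nc + 1) c.wt)) (cs (kf2 Ty K₀ c.bl (c.nc + 1) c.wt))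
            (Cs' (kf2 Ty K₀ c.bl (c.nc + 1) c.wt)) 1 X F → GoodV e e κs c₁ C₁ 1 X F :=
        fun h => gv_mono h (hκsm.trans (hkm _ (mem_range.2 hkD)))
          (hc₁m.trans (hcm _ (mem_range.2 hkD))) ((hCM _ (mem_range.2 hkD)).trans hC₁M)
      rcases hpk with hpk | ⟨hn1, hpk⟩
      · obtain ⟨Φ, a1, a2⟩ := h3 hpk
        have e1 : nk2 (kf2 Ty K₀ c.bl (c.nc + 1) c.wt) - 1 = c.nc := by rw [s2]; omega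
        obtain ⟨F, zs, b1, b2⟩ := (hst _ hkD).1 hpk (XX c) Φ (by rw [e1]; exact a1)
        rw [hq]
        refine hv_small2 (zs := zs) (Φ := Φ) (q := ⟨ρ₀, τ₀, κ₀, ε₀, e, e, κs, c₁, C₁, g⟩)
          h2 heg s1 rfl s3 (hmono b1) fun ψ hψ => ?_
        obtain ⟨c1, c2, c3, c4, c5⟩ := b2 ψ hψ
        exact ⟨c1, a2 _ c2, c3, c4, c5⟩
      · have hc1 : c.nc + 1 = 1 := by rw [← s2]; exact hn1
        obtain ⟨F, zs, b1, b2⟩ := (hst _ hkD).2 hpk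
        rw [hq]
        refine hv_small2 (zs := zs) (Φ := fun _ => 0)
          (q := ⟨ρ₀, τ₀, κ₀, ε₀, e, e, κs, c₁, C₁, g⟩) h2 heg s1 rfl s3
          (by rw [leaf_of hc1]; exact hmono b1) fun ψ hψ => ?_
        obtain ⟨c1, c3, c4, c5⟩ := b2 ψ hψ
        refine ⟨c1, leaf_cf hc1 _ _, ?_, c4, c5⟩
        rw [deriv_const, add_zero]
        exact c3) t
  refine ⟨K, hK0, fun Dc => ⟨e, C₁ * Dc * (2 * e) ^ 2 + 1, he0, heτ, by positivity,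
    fun t hok hnc => ?_⟩⟩
  obtain ⟨F, a1, a2⟩ := (hind t).1 hok
  rw [hq] at a1 a2
  refine ⟨F, dg_of_gv he0 hκs0 hc₁0 hC₁0 hnc a1, fun ψ hψ => ?_⟩
  exact a2 ψ ⟨by linarith [hψ.1], by linarith [hψ.2]⟩

end Pool.Agent.N566.PS
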