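import Pool.Agent.Y481.DR.Defs
import Pool.Agent.TH563.V.Defs
import Pool.Agent.W293.HT.CP1

/-!
# The functions of the class `GoodV` are of the class `DG` after normalisation
-/

set_option autoImplicit false

namespace Pool.Agent.N566.PS

open Finset Filter Topology Metric
open Pool.Agent.W711.HT hiding XX
open Pool.Agent.Y481.DR
open Pool.Agent.TH563.V (GoodV)
open Pool.Agent.W293.HT (GH)
open scoped Real

/-- the real part along the real axis -/
theorem re_le {ρ τ c C : ℝ} (hρ : 0 < ρ) (hτ : 0 < τ) (hc : 0 ≤ c) {F : ℂ → ℂ}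
    (hG : GH ρ τ c C F) {x : ℝ} (hx : |x| ≤ ρ) : (F x).re ≤ (F 0).re := by
  have hm : ∀ y : ℝ, |y| ≤ ρ → ((y : ℂ) + ((0 : ℝ) : ℂ) * Complex.I) ∈ Rc (2 * ρ) (2 * τ) := by
    intro y hy
    refine ⟨?_, ?_⟩
    · simp only [Complex.ofReal_zero, zero_mul, add_zero, Complex.ofReal_re]
      linarith
    · simp only [Complex.ofReal_zero, zero_mul, add_zero, Complex.ofReal_im, abs_zero]
      linarith
  have hm3 : ∀ y : ℝ, |y| ≤ ρ → ((y : ℂ) + ((0 : ℝ) : ℂ) * Complex.I) ∈ Rc (3 * ρ) (3 * τ) := by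
    intro y hy
    obtain ⟨h1, h2⟩ := hm y hy
    exact ⟨by linarith, by linarith⟩
  have h := Pool.Agent.W293.HT.quad_bound (r := ρ) (c := c) (x0 := 0)
    (f := fun x : ℝ => (F (x + ((0 : ℝ) : ℂ) * Complex.I)).re)
    (f' := fun x : ℝ => (deriv F (x + ((0 : ℝ) : ℂ) * Complex.I)).re)
    (f'' := fun x : ℝ => (deriv (deriv F) (x + ((0 : ℝ) : ℂ) * Complex.I)).re)
    (fun y hy => Pool.Agent.W293.HT.hasDerivAt_line (hG.da (hm3 y hy)).hasDerivAt)
    (fun y hy => Pool.Agent.W293.HT.hasDerivAt_line (hG.dda (hm3 y hy)).hasDerivAt)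
    (fun y hy => hG.d2 _ (hm y hy)) (by simpa using hρ.le)
    (by simp [hG.d0 hρ hτ]) hx
  simp only [Complex.ofReal_zero, zero_mul, add_zero, sub_zero] at h
  have h2 : 0 ≤ c / 2 * x ^ 2 := by positivity
  linarith

/-- subexponential growth of the normalised function -/
theorem gr_of {ρ τ κ c C : ℝ} (hρ : 0 < ρ) (hτ : 0 < τ) (hκ : 0 < κ) (hc : 0 < c)
    {t : ℕ} {X : ℕ → ℂ → ℂ} {F : ℂ → ℂ} (hG : GoodV ρ τ κ c C t X F) {ε : ℝ} (hε : 0 < ε) :
    ∀ᶠ N : ℕ in atTop, ∀ ψ : ℂ, |ψ.re| ≤ π → |ψ.im| ≤ 1 / N →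
      ‖X N ψ * Complex.exp (-(N * F 0))‖ ≤ Real.exp (N * ε) := by
  -- uniform continuity
  set Q : Set ℂ := Set.Icc (-ρ) ρ ×ℂ Set.Icc (-τ) τ with hQ
  have hQc : IsCompact Q := isCompact_Icc.reProdIm isCompact_Icc
  have hmem : ∀ z : ℂ, |z.re| ≤ ρ → |z.im| ≤ τ → z ∈ Q := by
    intro z h1 h2
    rw [hQ, Complex.mem_reProdIm]
    exact ⟨abs_le.1 h1, abs_le.1 h2⟩
  have hQs : Q ⊆ Rc (3 * ρ) (3 * τ) := by
    intro z hz
    rw [hQ, Complex.mem_reProdIm] at hz
    have h1 := abs_le.2 hz.1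
    have h2 := abs_le.2 hz.2
    exact ⟨by linarith, by linarith⟩
  have hu := hQc.uniformContinuousOn_of_continuous (hG.gh.an.continuousOn.mono hQs)
  rw [Metric.uniformContinuousOn_iff] at hu
  obtain ⟨δ, hδ, hδu⟩ := hu (ε / 2) (by linarith)
  have hN1 : ∀ᶠ N : ℕ in atTop, (1 : ℝ) / N < min δ τ :=
    tendsto_one_div_atTop_nhds_zero_nat.eventually (gt_mem_nhds (lt_min hδ hτ))
  filter_upwards [hG.gl1, hG.mw (ε / 2) (by linarith), hN1] with N g1 g2 g3 ψ hψ1 hψ2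
  have hNn : (0 : ℝ) ≤ N := Nat.cast_nonneg N
  have hre0 : (-((N : ℂ) * F 0)).re = -(N * (F 0).re) := by
    rw [Complex.neg_re]
    congr 1
    rw [show ((N : ℂ)) = ((N : ℝ) : ℂ) by push_cast; rfl, Complex.re_ofReal_mul]
  rw [norm_mul, Complex.norm_exp, hre0]
  have key : ‖X N ψ‖ ≤ Real.exp (N * ((F 0).re + ε)) := by
    rcases le_or_gt ρ |ψ.re| with h | h
    · have h1 := g1 ψ.re ψ.im h hψ1 hψ2
      rw [Complex.re_add_im] at h1
      refine h1.trans (Real.exp_le_exp.2 (mul_le_mul_of_nonneg_left ?_ hNn))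
      have : 0 ≤ (t : ℝ) * (κ / 2) := by positivity
      linarith
    · have him : |ψ.im| < min δ τ := lt_of_le_of_lt hψ2 g3
      have him1 : |ψ.im| < δ := lt_of_lt_of_le him (min_le_left _ _)
      have him2 : |ψ.im| < τ := lt_of_lt_of_le him (min_le_right _ _)
      have hm2 : ψ ∈ Rc (2 * ρ) (2 * τ) := ⟨by linarith, by linarith⟩
      obtain ⟨hne, hlog⟩ := g2 ψ hm2
      have hd : dist (F ψ) (F ((ψ.re : ℝ) : ℂ)) < ε / 2 := by
        refine hδu ψ (hmem ψ h.le him2.le) _ (hmem _ (by rw [Complex.ofReal_re]; exact h.le)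
          (by rw [Complex.ofReal_im, abs_zero]; exact hτ.le)) ?_
        rw [dist_eq_norm]
        have : ψ - ((ψ.re : ℝ) : ℂ) = ((ψ.im : ℝ) : ℂ) * Complex.I := by
          have := Complex.re_add_im ψ
          linear_combination -this
        rw [this, norm_mul, Complex.norm_I, mul_one, Complex.norm_real]
        exact him1
      have h3 : (F ψ).re ≤ (F ((ψ.re : ℝ) : ℂ)).re + ε / 2 := by
        have h4 := Complex.abs_re_le_norm (F ψ - F ((ψ.re : ℝ) : ℂ))
        rw [← dist_eq_norm, Complex.sub_re] at h4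
        have := (abs_le.1 h4).2
        linarith
      have h5 := re_le hρ hτ (by positivity : (0 : ℝ) ≤ c * t) hG.gh h.le
      have h6 : Real.log ‖X N ψ‖ ≤ N * ((F 0).re + ε) := by
        have h7 := (abs_le.1 hlog).2
        have h8 : (N : ℝ) * (F ψ).re ≤ N * ((F 0).re + ε / 2) :=
          mul_le_mul_of_nonneg_left (by linarith) hNn
        nlinarith
      have h9 : 0 < ‖X N ψ‖ := norm_pos_iff.2 hne
      rw [← Real.exp_log h9]
      exact Real.exp_le_exp.2 h6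
  calc ‖X N ψ‖ * Real.exp (-(N * (F 0).re))
      ≤ Real.exp (N * ((F 0).re + ε)) * Real.exp (-(N * (F 0).re)) :=
        mul_le_mul_of_nonneg_right key (Real.exp_pos _).le
    _ = Real.exp (N * ε) := by
        rw [← Real.exp_add]
        congr 1
        ring

/-- **The normalised function is of the class `DG`.** -/
theorem dg_of_gv {e κ c C : ℝ} (he : 0 < e) (hκ : 0 < κ) (hc : 0 < c) (hC : 0 < C)
    {D t : ℕ} (ht : t ≤ D) {X : ℕ → ℂ → ℂ} {F : ℂ → ℂ} (hG : GoodV e e κ c C t X F) :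
    DG e (C * D * (2 * e) ^ 2 + 1) (fun N ψ => X N ψ * Complex.exp (-(N * F 0)))
      (fun ψ => F ψ - F 0) := by
  have hsub : Rc e e ⊆ Rc (3 * e) (3 * e) := fun z hz => ⟨by linarith [hz.1], by linarith [hz.2]⟩
  have hsub2 : Rc e e ⊆ Rc (2 * e) (2 * e) := fun z hz => ⟨by linarith [hz.1], by linarith [hz.2]⟩
  refine ⟨⟨?_, ?_, ?_⟩, ?_, ?_, ?_, ?_, ?_, ?_⟩
  · intro N
    exact (hG.an N).mul_const _
  · intro N ψ
    show X N (-ψ) * _ = X N ψ * _
    rw [hG.ev]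
  · intro ε hε'
    exact gr_of he he hκ hc hG hε'
  · exact sub_self _
  · exact (hG.gh.an.mono hsub).sub_const _
  · intro ψ hψ
    show F (-ψ) - F 0 = F ψ - F 0
    rw [hG.gh.ev ψ (hsub hψ)]
  · intro ψ hψ
    show ‖F ψ - F 0‖ ≤ _
    have h1 := hG.gh.val he he (by positivity) (hsub2 hψ)
    have h2 : ‖ψ‖ ≤ 2 * e := by
      refine (Complex.norm_le_abs_re_add_abs_im ψ).trans ?_
      linarith [hψ.1, hψ.2]
    have h3 : ‖ψ‖ ^ 2 ≤ (2 * e) ^ 2 := pow_le_pow_left₀ (norm_nonneg _) h2 2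
    have h4 : C * t ≤ C * D := mul_le_mul_of_nonneg_left (by exact_mod_cast ht) hC.le
    have h5 : C * t * ‖ψ‖ ^ 2 ≤ C * D * (2 * e) ^ 2 :=
      mul_le_mul h4 h3 (by positivity) (by positivity)
    linarith
  · intro ψ hψ
    have h1 : (deriv fun z => F z - F 0) = deriv F := by
      funext z
      exact deriv_sub_const _
    show (deriv (deriv fun z => F z - F 0) ψ).re ≤ 0
    rw [h1]
    have h2 := hG.gh.d2 ψ (hsub2 hψ)
    have h3 : 0 ≤ c * t := by positivity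
    linarith
  · intro ε hε'
    filter_upwards [hG.mw ε hε'] with N hN z hz
    obtain ⟨h1, h2⟩ := hN z (hsub2 hz)
    refine ⟨mul_ne_zero h1 (Complex.exp_ne_zero _), ?_⟩
    have hre0 : (-((N : ℂ) * F 0)).re = -(N * (F 0).re) := by
      rw [Complex.neg_re]
      congr 1
      rw [show ((N : ℂ)) = ((N : ℝ) : ℂ) by push_cast; rfl, Complex.re_ofReal_mul]
    rw [norm_mul, Complex.norm_exp, hre0, Real.log_mul (norm_ne_zero_iff.2 h1)
      (Real.exp_pos _).ne', Real.log_exp]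
    have e : Real.log ‖X N z‖ + -(N * (F 0).re) - N * (F z - F 0).re =
        Real.log ‖X N z‖ - N * (F z).re := by
      rw [Complex.sub_re]
      ring
    rw [e]
    exact h2

end Pool.Agent.N566.PS
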