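import Pool.Agent.N566.PS.Geo
import Pool.Agent.N566.PS.Tru
import Pool.Agent.Y481.DR.Find

/-!
# Rings of trees with small vertices: the growth rate of the invariant is the maximal volume

As `Pool.Agent.Y481.DR.Find`.
-/

set_option autoImplicit false

namespace Pool.Agent.N566.PS

open Finset Filter Topology Metric
open Pool.Agent.W711.HT hiding XX
open Pool.Agent.Y472
open Pool.Agent.Y481 (itI cw wts)
open Pool.Agent.TH563.UV (Tb op XX PB AB)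
open Pool.Agent.W719.AR (Fl)
open Pool.Agent.Y481.DR
open Pool.Agent.N561 (CG VCG gg vg EFW OkT2)
open scoped Real

/-- the growth rate; critical configurations -/
theorem find_coreV {Ty : ℕ → ℤ → Prop} (hEXD : ∀ (N : ℕ) (ts : List (Tb × Tb)) (m : ℤ), 2 ≤ N → ts ≠ [] → NoC ts →
      ‖JD ts m N (vN N)‖ = ((N : ℝ) ^ 2 / (2 * π)) ^ nel ts * ‖ES N (tvl ts) m‖)
    (hSCL : S_SCL) (hMAIN : S_MAINF) (hTRU : S_TRUV Ty) (hGEOD : S_GEODV) (hS0P : S_S0P) :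
    ∃ K : ℝ, 0 < K ∧ ∀ (k : ℕ) (m : ℤ) (D : ℕ), 1 ≤ k → 0 ≤ m → ¬ (k = 1 ∧ m = 0) → ∃ M : ℝ,
    ∀ ts : List (Tb × Tb), ts.length = k → NoC ts →
    (∀ p ∈ ts, OkT2 Ty K true p.1 ∧ OkT2 Ty K true p.2 ∧ p.1.nc ≤ D ∧ p.2.nc ≤ D ∧
      M ≤ |(p.1.wt : ℝ)| ∧ M ≤ |(p.2.wt : ℝ)|) →
    ∃ V : ℝ, (∀ r : ℕ → ℕ, (r = fun j => j) ∨ (r = fun j => rv (2 * k) j) →
      IsGreatest {W : ℝ | ∃ (y : ℕ → AB) (f g F G : ℕ → Fl),
        (∀ j < 2 * k, (y j).shape = tj ts (r j)) ∧ DAng (2 * k) m y f g F G ∧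
          dVol (2 * k) y f g F G = W} V) ∧
      (∀ᶠ N : ℕ in atTop, JD ts m N (vN N) ≠ 0) ∧
      Tendsto (fun N : ℕ => 2 * π * (Real.log ‖JD ts m N (vN N)‖ / N)) atTop (𝓝 V) := by
  obtain ⟨ρ, τ, κ, cc, s, dl, hKD, kf, cen, S', Dn, hkt, hkD, hkS, hTr'⟩ := hTRU
  obtain ⟨g₀, hg₀, hgeo'⟩ := hGEOD hS0P ρ τ κ cc s dl hKD kf cen S' Dn hkt hkD hkS
  obtain ⟨K, hK, hTr⟩ := hTr' g₀ hg₀
  refine ⟨K, hK, fun k m D hk hm hkm => ?_⟩
  obtain ⟨χ₀, ρ₀, c, C, hZr, hSD, hM⟩ := hMAIN k m hk hm hkm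
  obtain ⟨R₀, B₀, hR₀, hR₀τ, hB₀, hT⟩ := hTr D
  obtain ⟨ε, hε, hgeo⟩ := hgeo' χ₀ hZr
  obtain ⟨M, hMM⟩ := hM R₀ B₀ ε hR₀ hB₀ hε
  choose! F hF1 hF2 using fun (t : Tb) (h : OkT2 Ty K true t ∧ t.nc ≤ D) => hT t h.1 h.2
  refine ⟨M, fun ts hlen hNC hts => ?_⟩
  have hl2 : 2 * ts.length = 2 * k := by rw [hlen]
  -- the properties of the trees
  have hP : ∀ j < 2 * k, (OkT2 Ty K true (tj ts j) ∧ (tj ts j).nc ≤ D) ∧ M ≤ |((tj ts j).wt : ℝ)| ∧
      (tj ts j).bl = false := by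
    intro j hj
    refine tj_get ts (fun t => (OkT2 Ty K true t ∧ t.nc ≤ D) ∧ M ≤ |(t.wt : ℝ)| ∧ t.bl = false)
      (fun p hp => ?_) (by omega)
    obtain ⟨h1, h2, h3, h4, h5, h6⟩ := hts p hp
    exact ⟨⟨⟨h1, h3⟩, h5, (hNC p hp).1⟩, ⟨⟨h2, h4⟩, h6, (hNC p hp).2⟩⟩
  have hvy : ∀ j < 2 * k, vy (nvl F ts) j =
      fun N ψ => XX (tj ts j) N ψ * Complex.exp (-(N * F (tj ts j) 0)) := by
    intro j hj
    rw [vy_nvl F ts (by omega)]
    rfl
  have hcw : ∀ j < 2 * k, cw (wl (nvl F ts)) j = (tj ts j).wt := fun j hj =>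
    cw_nvl F ts (by omega)
  obtain ⟨z, χ, hRC, hz, hχ, hpos, hlim⟩ := hMM (nvl F ts)
    (fun j ψ => F (tj ts j) ψ - F (tj ts j) 0) (by rw [nvl_len, hlen])
    (fun j hj => by rw [hvy j hj]; exact hF1 _ (hP j hj).1)
    (fun j hj => by rw [hcw j hj]; exact (hP j hj).2.1)
  have hsub : Rc R₀ R₀ ⊆ Rc ρ τ := by
    intro w hw
    exact ⟨hw.1.trans_le (hR₀τ.trans hKD.hτ.2), hw.2.trans_le hR₀τ⟩
  -- the critical configurations of the trees
  have hex : ∀ j, ∃ p : PB, j < 2 * k → p.shape = tj ts j ∧ p.rz = z j ∧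
      CG kf cen S' s ρ τ g₀ 0 p ∧
      F (tj ts j) (z j) = vg kf S' s 0 p ∧ HasDerivAt (F (tj ts j)) (gg kf S' s 0 p) (z j) := by
    intro j
    by_cases hj : j < 2 * k
    · obtain ⟨p, hp⟩ := hF2 _ (hP j hj).1 (z j) (hz j hj).1
      exact ⟨p, fun _ => hp⟩
    · exact ⟨.vx false 0 0, fun h => absurd h hj⟩
  choose p hp using hex
  have hn : 0 < 2 * k := by omega
  have hg : ∀ j < 2 * k, deriv (fun ψ => F (tj ts j) ψ - F (tj ts j) 0) (z j) = gg kf S' s 0 (p j) := by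
    intro j hj
    rw [deriv_sub_const]
    exact (hp j hj).2.2.2.2.deriv
  have hwt : ∀ j < 2 * k, cw (wl (nvl F ts)) j = (p j).wt := by
    intro j hj
    rw [hcw j hj, ← (hp j hj).1, shape_wt]
  have hRC' : RCritF szz χ₀ ρ₀ (2 * k) (fun j => (p j).wt) (fun j => gg kf S' s 0 (p j)) m
      (fun j => (p j).rz) χ :=
    rcf_congr hn hwt hg (fun j hj => (hp j hj).2.1.symm) hRC
  have hgen : ∀ r : ℕ → ℕ, (∀ j < 2 * k, r j < 2 * k) →
      RCritF szz χ₀ ρ₀ (2 * k) (fun j => (p (r j)).wt) (fun j => gg kf S' s 0 (p (r j))) m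
        (fun j => (p (r j)).rz) χ →
      IsGreatest {W : ℝ | ∃ (y : ℕ → AB) (f g F G : ℕ → Fl),
        (∀ j < 2 * k, (y j).shape = tj ts (r j)) ∧ DAng (2 * k) m y f g F G ∧
          dVol (2 * k) y f g F G = W}
        (2 * π * (RVal3 szz (2 * k) (fun j => (p (r j)).wt) m (fun j => (p (r j)).rz) χ +
          ∑ j ∈ range (2 * k), vg kf S' s 0 (p (r j))).re) := by
    intro r hr hR
    have hgr := hgeo ρ₀ c C hSD (2 * k) m (fun j => p (r j)) χ (by omega) (fun j hj => ⟨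
        (hp _ (hr j hj)).2.2.1, by
        rw [(hp _ (hr j hj)).2.1]; exact hsub (hz _ (hr j hj)).1, by
        rw [(hp _ (hr j hj)).2.1]; exact (hz _ (hr j hj)).2⟩) hχ hR
    have hset : {W : ℝ | ∃ (y : ℕ → AB) (f g F G : ℕ → Fl),
        (∀ j < 2 * k, (y j).shape = tj ts (r j)) ∧ DAng (2 * k) m y f g F G ∧
          dVol (2 * k) y f g F G = W} =
        {W : ℝ | ∃ (y : ℕ → AB) (f g F G : ℕ → Fl), (∀ j < 2 * k, (y j).shape = (p (r j)).shape) ∧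
          DAng (2 * k) m y f g F G ∧ dVol (2 * k) y f g F G = W} := by
      ext W
      constructor
      · rintro ⟨y, f, g, F', G, h1, h2⟩
        exact ⟨y, f, g, F', G, fun j hj => by rw [h1 j hj, (hp _ (hr j hj)).1], h2⟩
      · rintro ⟨y, f, g, F', G, h1, h2⟩
        exact ⟨y, f, g, F', G, fun j hj => by rw [h1 j hj, (hp _ (hr j hj)).1], h2⟩
    rw [hset]
    exact hgr
  set V : ℝ := 2 * π * (RVal3 szz (2 * k) (fun j => (p j).wt) m (fun j => (p j).rz) χ +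
    ∑ j ∈ range (2 * k), vg kf S' s 0 (p j)).re with hV
  refine ⟨V, ?_, ?_⟩
  · rintro r (rfl | rfl)
    · exact hgen (fun j => j) (fun j hj => hj) hRC'
    · have h1 := hgen (fun j => rv (2 * k) j) (fun j _ => rv_lt hn j) (rcf_rev hSD hn hRC')
      have h2 := rval_rev hSD hn hRC'
      have h3 : ∑ j ∈ range (2 * k), vg kf S' s 0 (p (rv (2 * k) j)) = ∑ j ∈ range (2 * k), vg kf S' s 0 (p j) :=
        sum_rv hn fun j => vg kf S' s 0 (p j)
      rw [h2, h3] at h1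
      exact h1
  -- the limit
  set L : ℝ := (RVal3 szz (2 * k) (cw (wl (nvl F ts))) m z χ +
    ∑ j ∈ range (2 * k), (F (tj ts j) (z j) - F (tj ts j) 0)).re with hL
  set S : ℝ := ∑ j ∈ range (2 * k), (F (tj ts j) 0).re with hS
  have hVL : V = 2 * π * (S + L) := by
    rw [hV, hL, hS, rval_congr hn hwt (fun j hj => ((hp j hj).2.1.symm : z j = (p j).rz))]
    congr 1
    have e1 : ∑ j ∈ range (2 * k), vg kf S' s 0 (p j) = ∑ j ∈ range (2 * k), F (tj ts j) (z j) :=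
      sum_congr rfl fun j hj => (hp j (mem_range.1 hj)).2.2.2.1.symm
    rw [e1, sum_sub_distrib, Complex.add_re, Complex.add_re, Complex.sub_re, ← Complex.re_sum,
      Complex.re_sum, Complex.re_sum]
    ring
  have hne : ∀ᶠ N : ℕ in atTop, ‖ES N (nvl F ts) m‖ ≠ 0 := by
    have h1 : ∀ᶠ N : ℕ in atTop, 0 < Real.log ‖ES N (nvl F ts) m‖ / N :=
      hlim.eventually (lt_mem_nhds hpos)
    filter_upwards [h1] with N h h0
    rw [h0, Real.log_zero, zero_div] at h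
    exact lt_irrefl _ h
  have hne2 : ∀ᶠ N : ℕ in atTop, JD ts m N (vN N) ≠ 0 := by
    filter_upwards [hne, eventually_ge_atTop 2] with N hN hN2
    have hN0 : (0 : ℝ) < N := by exact_mod_cast (by omega : 0 < N)
    have hts0 : ts ≠ [] := by
      intro h
      rw [h] at hlen
      simp at hlen
      omega
    have hA : ‖ES N (nvl F ts) m‖ = Real.exp (-(N * S)) * ‖ES N (tvl ts) m‖ := by
      rw [nvl_scl, hSCL N (tvl ts) (ev F ts) m (by omega) (by simp [tvl, ev]), norm_mul, ev_prod,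
        hl2]
    have hq : (0 : ℝ) < (N : ℝ) ^ 2 / (2 * π) := by positivity
    intro h
    have h1 := hEXD N ts m hN2 hts0 hNC
    rw [h, norm_zero] at h1
    rcases mul_eq_zero.1 h1.symm with h2 | h2
    · exact pow_ne_zero _ hq.ne' h2
    · rw [hA, h2, mul_zero] at hN
      exact hN rfl
  refine ⟨hne2, ?_⟩
  have hlog : ∀ᶠ N : ℕ in atTop, 2 * π * (Real.log ‖JD ts m N (vN N)‖ / N) =
      2 * π * (nel ts * (Real.log ((N : ℝ) ^ 2 / (2 * π)) / N) + S +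
        Real.log ‖ES N (nvl F ts) m‖ / N) := by
    filter_upwards [hne, eventually_ge_atTop 2] with N hN hN2
    have hN0 : (0 : ℝ) < N := by exact_mod_cast (by omega : 0 < N)
    have hts0 : ts ≠ [] := by
      intro h
      rw [h] at hlen
      simp at hlen
      omega
    have hA : ‖ES N (nvl F ts) m‖ = Real.exp (-(N * S)) * ‖ES N (tvl ts) m‖ := by
      rw [nvl_scl, hSCL N (tvl ts) (ev F ts) m (by omega) (by simp [tvl, ev]), norm_mul, ev_prod,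
        hl2]
    have hB : ‖ES N (tvl ts) m‖ ≠ 0 := by
      intro h
      rw [hA, h, mul_zero] at hN
      exact hN rfl
    have hq : (0 : ℝ) < (N : ℝ) ^ 2 / (2 * π) := by positivity
    have hlA : Real.log ‖ES N (nvl F ts) m‖ = -(N * S) + Real.log ‖ES N (tvl ts) m‖ := by
      rw [hA, Real.log_mul (Real.exp_ne_zero _) hB, Real.log_exp]
    rw [hEXD N ts m hN2 hts0 hNC, Real.log_mul (pow_ne_zero _ hq.ne') hB, Real.log_pow, hlA]
    field_simp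
    ring
  have hsm : Tendsto (fun N : ℕ => Real.log ((N : ℝ) ^ 2 / (2 * π)) / N) atTop (𝓝 0) := by
    have h1 : Tendsto (fun N : ℕ => Real.log (N : ℝ) / N) atTop (𝓝 0) :=
      (Real.isLittleO_log_id_atTop.tendsto_div_nhds_zero).comp tendsto_natCast_atTop_atTop
    have h2 : Tendsto (fun N : ℕ => Real.log (2 * π) / (N : ℝ)) atTop (𝓝 0) :=
      tendsto_const_nhds.div_atTop tendsto_natCast_atTop_atTop
    have h3 := (h1.const_mul 2).sub h2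
    simp only [mul_zero, sub_zero] at h3
    refine h3.congr' ?_
    filter_upwards [eventually_ge_atTop 1] with N hN
    have hN0 : (0 : ℝ) < N := by exact_mod_cast (by omega : 0 < N)
    rw [Real.log_div (by positivity) (by positivity), Real.log_pow]
    push_cast
    ring
  rw [hVL]
  refine Tendsto.congr' (hlog.mono fun N h => h.symm) ?_
  have h4 := (((hsm.const_mul (nel ts : ℝ)).add_const S).add hlim).const_mul (2 * π)
  simpa using h4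

/-- the growth rate; the trees are numbered upwards -/
def S_FINDV (Ty : ℕ → ℤ → Prop) : Prop := ∃ K : ℝ, 0 < K ∧ ∀ (k : ℕ) (m : ℤ) (D : ℕ), 1 ≤ k →
  0 ≤ m → ¬ (k = 1 ∧ m = 0) → ∃ M : ℝ, ∀ ts : List (Tb × Tb), ts.length = k → NoC ts →
    (∀ p ∈ ts, OkT2 Ty K true p.1 ∧ OkT2 Ty K true p.2 ∧ p.1.nc ≤ D ∧ p.2.nc ≤ D ∧
      M ≤ |(p.1.wt : ℝ)| ∧ M ≤ |(p.2.wt : ℝ)|) →
    ∃ V : ℝ, IsGreatest {W : ℝ | ∃ (y : ℕ → AB) (f g F G : ℕ → Fl),
        (∀ j < 2 * k, (y j).shape = tj ts ((2 * k - j) % (2 * k))) ∧ DAng (2 * k) m y f g F G ∧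
          dVol (2 * k) y f g F G = W} V ∧
      (∀ᶠ N : ℕ in atTop, JD ts m N (vN N) ≠ 0) ∧
      Tendsto (fun N : ℕ => 2 * π * (Real.log ‖JD ts m N (vN N)‖ / N)) atTop (𝓝 V)

theorem findv_of {Ty : ℕ → ℤ → Prop}
    (hEXD : ∀ (N : ℕ) (ts : List (Tb × Tb)) (m : ℤ), 2 ≤ N → ts ≠ [] → NoC ts →
      ‖JD ts m N (vN N)‖ = ((N : ℝ) ^ 2 / (2 * π)) ^ nel ts * ‖ES N (tvl ts) m‖)
    (hSCL : S_SCL) (hMAIN : S_MAINF) (hTRU : S_TRUV Ty) (hGEOD : S_GEODV) (hS0P : S_S0P) :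
    S_FINDV Ty := by
  obtain ⟨K, hK, h⟩ := find_coreV hEXD hSCL hMAIN hTRU hGEOD hS0P
  refine ⟨K, hK, fun k m D hk hm hkm => ?_⟩
  obtain ⟨M, hM⟩ := h k m D hk hm hkm
  refine ⟨M, fun ts h1 h2 h3 => ?_⟩
  obtain ⟨V, h4, h5⟩ := hM ts h1 h2 h3
  exact ⟨V, h4 _ (Or.inr rfl), h5⟩

end Pool.Agent.N566.PS
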