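import Pool.Agent.Y481.DR.Geo
import Pool.Agent.N561.G.Geo

/-!
# Rings of trees with small vertices: the critical value is the maximal volume

The trees may have vertices of general kinds (as in `Pool.Agent.N561.G.Geo`), their roots are near
`0`; the ring is treated as in `Pool.Agent.Y481.DR.Geo`.
-/

set_option autoImplicit false

namespace Pool.Agent.N566.PS

open Finset Filter Topology
open Complex (exp log cos sin I)
open Pool.Agent.W711.HT hiding XX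
open Pool.Agent.W719.AR (Fl Gap)
open Pool.Agent.W709.VC (S_TET)
open Pool.Agent.W737.AR (Lf ze vol_le)
open Pool.Agent.TH563.UV (Tb PB AB VC)
open Pool.Agent.TH609.UV (fe wt_eq)
open Pool.Agent.Y482 (sum_succ_mod)
open Pool.Agent.Y482.Chi (VX rho rlam TB TU TX flA flB bv lgr Lc lg_lc vertexX im_I_mul re_I_mul)
open Pool.Agent.Y482.Cz (BG)
open Pool.Agent.Y472 (SDZ RVal3 Rz Zr S_S0P szz dzz)
open Pool.Agent.Y481.DR
open Pool.Agent.N561 (CG VCG gg vg EFW)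
open Pool.Agent.N561.G
open scoped Real

section

variable {kf : Bool → ℕ → ℤ → ℕ} {e : ℕ → ℕ → ℂ → ℂ → ℂ}

/-- the conditions at a vertex of the critical structure -/
theorem vdV {q : PB} (hq : hpv kf e 0 q) {w : ℤ} {a a' b' d χ : ℂ}
    (h : BG a b' (q.rz / 2) χ) (h' : BG a' (q.rz / 2) d χ)
    (he : I * (w * q.rz + 2 * π) = lgr a (q.rz / 2) + lgr a' (q.rz / 2) + lgv kf e 0 q) :
    VD w (agv kf e 0 q).fl (flA a b' χ) (flA a (-(q.rz / 2)) (-χ)) (flB a b' χ)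
      (flB a (-(q.rz / 2)) (-χ)) (flA a' (q.rz / 2) χ) (flA a' (-d) (-χ)) (flB a' (q.rz / 2) χ)
      (flB a' (-d) (-χ)) := by
  have k := Pool.Agent.Y482.Cz.blkAng h
  have k' := Pool.Agent.Y482.Cz.blkAng h'
  obtain ⟨g1, g2⟩ := agv_fl kf e 0 q hq
  have hψ : 2 * (q.rz / 2).re = q.rz.re := by
    rw [← Pool.Agent.Y482.Chi.re_two]
    congr 1
    ring
  have hfill : (flA a' (q.rz / 2) χ).cr + (flB a' (q.rz / 2) χ).cr -
      ((flA a (-(q.rz / 2)) (-χ)).cr + (flB a (-(q.rz / 2)) (-χ)).cr) +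
      2 * ((agv kf e 0 q).fl.map fun y => y.1.cr).sum =
      4 * π + w * ((flA a' (q.rz / 2) χ).tw + (flB a' (q.rz / 2) χ).tw) := by
    obtain ⟨-, c2, -⟩ := Pool.Agent.Y482.Cz.blkCr h
    obtain ⟨c1, -, -⟩ := Pool.Agent.Y482.Cz.blkCr h'
    have he' := congrArg Complex.im he
    rw [Complex.add_im, Complex.add_im, im_I_mul] at he'
    simp only [Complex.add_re, Complex.mul_re, Complex.intCast_re, Complex.intCast_im, zero_mul,
      sub_zero, Complex.re_ofNat, Complex.im_ofNat, Complex.ofReal_re, Complex.ofReal_im] at he'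
    rw [g2]
    unfold Fl.cr Fl.tw
    have q1 := k'.Pb
    have q2 := k'.Qb
    linear_combination c1 - c2 - 2 * he' - (w : ℝ) * q1 - (w : ℝ) * q2 - 2 * w * hψ
  have hx : ∀ x ∈ (agv kf e 0 q).fl, 2 * x.1.c + (x.2.a + x.2.b') = π - q.rz.re ∧
      2 * x.1.a' + (x.2.a + x.2.b') = π + q.rz.re ∧ x.1.tw = q.rz.re := by
    intro x hx
    obtain ⟨ψ₁, u₁, h₁, rfl⟩ := g1 x hx
    have e' := h₁.sr
    exact ⟨e'.2.2.1, e'.2.2.2.1, e'.2.2.2.2.1⟩
  refine ⟨fun hnil => ⟨?_, ?_, ?_, ?_, ?_, ?_, ?_⟩, ?_, ?_, ?_, ?_, ?_, ?_, ?_, hfill⟩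
  · linarith [k.TS, k'.BS]
  · linarith [k.TA, k'.BA]
  · linarith [k.CAt, k'.CAb]
  · linarith [k.CRt, k'.CRb]
  · intro _
    exact ⟨by linarith [k.Pt, k'.Pb], by linarith [k.Qt, k'.Qb]⟩
  · intro _
    exact ⟨by linarith [k.Qt, k'.Pb], by linarith [k.Pt, k'.Qb]⟩
  · rw [hnil, List.map_nil, List.sum_nil, mul_zero, add_zero] at hfill
    exact hfill
  · linarith [k.TA, k'.BA]
  · linarith [k.CAt, k'.CAb]
  · linarith [k.CRt, k'.CRb]
  · intro y hy
    have := (hx y (List.mem_of_mem_head? hy)).2.1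
    linarith [k'.BS]
  · refine Pool.Agent.W398.AR.isChain_all _ ?_
    intro x hx1 y hy1
    have e1 := (hx x hx1).1
    have e2 := (hx y hy1).2.1
    unfold Gap
    linarith
  · intro x hx1
    have := (hx x (List.mem_of_getLast? hx1)).1
    linarith [k.TS]
  · intro x hx1
    have := (hx x hx1).2.2
    exact ⟨by linarith [k.Pt], by linarith [k.Qt], by linarith [k'.Pb], by linarith [k'.Qb]⟩

section

variable {n : ℕ} {m : ℤ} {p : ℕ → PB} {χ : ℂ} {u : ℕ → ℂ}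

/-- the critical structure is an angle structure -/
theorem crit_angV (hn : 1 ≤ n) (hp : ∀ j < n, hpv kf e 0 (p j) ∧ lcv kf e 0 (p j))
    (h : CritD n (fun j => (p j).wt) (fun j => lgv kf e 0 (p j)) m (fun j => (p j).rz) χ u) :
    DAng n m (fun j => agv kf e 0 (p j)) (fun j => flA (u j / 2) ((p j).rz / 2) (χ / 2))
      (fun j => flA (u j / 2) (-((p ((j + 1) % n)).rz / 2)) (-(χ / 2)))
      (fun j => flB (u j / 2) ((p j).rz / 2) (χ / 2))
      (fun j => flB (u j / 2) (-((p ((j + 1) % n)).rz / 2)) (-(χ / 2))) := by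
  refine ⟨?_, ?_, ?_, ?_, ?_⟩
  · intro j hj
    exact (h.bz j hj).pos
  · intro j hj
    have k := Pool.Agent.Y482.Cz.blkAng (h.bz j hj)
    exact ⟨k.dA, k.dB⟩
  · intro j hj
    exact agv_isok kf e _ 0 (hp j hj).1 (hp j hj).2
  · intro j hj
    have h1 : (j + 1) % n < n := Nat.mod_lt _ (by omega)
    have he := h.lgr hj
    rw [show 2 * ((p ((j + 1) % n)).rz / 2) = (p ((j + 1) % n)).rz by ring] at he
    have := vdV (hp _ h1).1 (h.bz j hj) (h.bz _ h1) he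
    rw [agv_wt]
    exact this
  · have h0 : 0 < n := by omega
    have hr : ∀ j ∈ range n, rho (flA (u j / 2) ((p j).rz / 2) (χ / 2))
        (flA (u j / 2) (-((p ((j + 1) % n)).rz / 2)) (-(χ / 2)))
        (flB (u j / 2) ((p j).rz / 2) (χ / 2))
        (flB (u j / 2) (-((p ((j + 1) % n)).rz / 2)) (-(χ / 2))) =
        -2 * (Pool.Agent.Y482.Chi.lcr (u j / 2) (χ / 2)).im +
          (2 * (log (cos ((p j).rz / 2 + χ / 2))).im -
          2 * (log (cos ((p ((j + 1) % n)).rz / 2 + χ / 2))).im) := by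
      intro j hj
      rw [mem_range] at hj
      obtain ⟨-, -, c3⟩ := Pool.Agent.Y482.Cz.blkCr (h.bz j hj)
      unfold rho
      linarith
    rw [sum_congr rfl hr, sum_add_distrib, sum_sub_distrib,
      sum_succ_mod n hn (fun j => 2 * (log (cos ((p j).rz / 2 + χ / 2))).im), sub_self, add_zero,
      ← mul_sum]
    have he := congrArg Complex.im h.lcr
    rw [Complex.im_sum, im_I_mul] at he
    have e1 : (2 * (m : ℂ) * (2 * (χ / 2)) + 2 * π).re = 2 * m * (2 * (χ / 2).re) + 2 * π := by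
      simp
    rw [e1] at he
    rw [← he]
    have q := Pool.Agent.Y482.Cz.blkAng (h.bz 0 h0)
    have q1 := q.TA
    have q2 := q.CAt
    unfold rlam
    linear_combination (2 * (m : ℝ)) * q1 + 2 * (m : ℝ) * q2

/-- the critical structure has maximal volume -/
theorem crit_maxV (htet : S_TET) (hn : 1 ≤ n)
    (hp : ∀ j < n, hpv kf e 0 (p j) ∧ lcv kf e 0 (p j))
    (h : CritD n (fun j => (p j).wt) (fun j => lgv kf e 0 (p j)) m (fun j => (p j).rz) χ u)
    {y : ℕ → AB} {f g F G : ℕ → Fl} (hs : ∀ j < n, (y j).shape = (p j).shape)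
    (hy : DAng n m y f g F G) :
    dVol n y f g F G ≤ dVol n (fun j => agv kf e 0 (p j))
      (fun j => flA (u j / 2) ((p j).rz / 2) (χ / 2))
      (fun j => flA (u j / 2) (-((p ((j + 1) % n)).rz / 2)) (-(χ / 2)))
      (fun j => flB (u j / 2) ((p j).rz / 2) (χ / 2))
      (fun j => flB (u j / 2) (-((p ((j + 1) % n)).rz / 2)) (-(χ / 2))) := by
  have h0 : 0 < n := by omega
  obtain ⟨z, hz⟩ : ∃ z : ℕ → ℂ, z = fun j => (p j).rz := ⟨_, rfl⟩
  have hzj : ∀ j, (p j).rz = z j := fun j => by rw [hz]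
  simp only [hzj] at h ⊢
  -- the rotation along the longitude of the axis is constant
  have hR : ∀ j < n, rlam (f j) (g j) (F j) (G j) = rlam (f 0) (g 0) (F 0) (G 0) := by
    intro j
    induction j with
    | zero => intro _; rfl
    | succ k ih =>
      intro hk
      have hk' : k < n := by omega
      have e : (k + 1) % n = k + 1 := Nat.mod_eq_of_lt hk
      have hv := hy.vert k hk'
      rw [e] at hv
      obtain ⟨p1, p2, p3, p4⟩ := hy.pos _ hk
      obtain ⟨d1, d2⟩ := hy.diag _ hk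
      rw [hv.rlam_step p1 p2 p3 p4 d1 d2, ih hk']
  have h1 : dVol n y f g F G ≤ dVol n (fun j => agv kf e 0 (p j))
      (fun j => flA (u j / 2) (z j / 2) (χ / 2))
      (fun j => flA (u j / 2) (-(z ((j + 1) % n) / 2)) (-(χ / 2)))
      (fun j => flB (u j / 2) (z j / 2) (χ / 2))
      (fun j => flB (u j / 2) (-(z ((j + 1) % n) / 2)) (-(χ / 2))) -
      ∑ j ∈ range n, (2 * LLv kf e 0 (p j) (y j) +
        (TB (u j / 2) (z j / 2) (χ / 2) ((log (cos (z j / 2 + χ / 2))).re +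
          (log (cos (z j / 2 - χ / 2))).re) (f j) (g j) (F j) (G j) +
        TU (u j / 2) (z ((j + 1) % n) / 2) (χ / 2) ((log (cos (z ((j + 1) % n) / 2 + χ / 2))).re +
          (log (cos (z ((j + 1) % n) / 2 - χ / 2))).re) (f j) (g j) (F j) (G j) +
        TX (u j / 2) (z j / 2) (z ((j + 1) % n) / 2) (χ / 2) (f j) (g j) (F j) (G j))) := by
    unfold dVol
    rw [← sum_sub_distrib]
    refine sum_le_sum fun j hj => ?_
    rw [mem_range] at hj
    have hB := h.bz j hj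
    obtain ⟨b1, b2, b3, b4⟩ := hB.pos
    obtain ⟨p1, p2, p3, p4⟩ := hy.pos j hj
    obtain ⟨d1, d2⟩ := hy.diag j hj
    have key := Pool.Agent.Y482.Cz.blk_lf hB p1 p2 p3 p4 d1 d2
    have v1 := vol_le htet _ (f j) b1 p1
    have v2 := vol_le htet _ (g j) b2 p2
    have v3 := vol_le htet _ (F j) b3 p3
    have v4 := vol_le htet _ (G j) b4 p4
    have v5 := vol_LLv kf e htet (p j) 0 (hp j hj).1 (y j) (hs j hj) (hy.tree j hj)
    linarith
  have h2 : ∑ j ∈ range n, (2 * LLv kf e 0 (p j) (y j) +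
        (TB (u j / 2) (z j / 2) (χ / 2) ((log (cos (z j / 2 + χ / 2))).re +
          (log (cos (z j / 2 - χ / 2))).re) (f j) (g j) (F j) (G j) +
        TU (u j / 2) (z ((j + 1) % n) / 2) (χ / 2) ((log (cos (z ((j + 1) % n) / 2 + χ / 2))).re +
          (log (cos (z ((j + 1) % n) / 2 - χ / 2))).re) (f j) (g j) (F j) (G j) +
        TX (u j / 2) (z j / 2) (z ((j + 1) % n) / 2) (χ / 2) (f j) (g j) (F j) (G j))) = 0 := by
    rw [sum_add_distrib, sum_add_distrib, sum_add_distrib,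
      ← sum_succ_mod n hn (fun j => 2 * LLv kf e 0 (p j) (y j)),
      ← sum_succ_mod n hn (fun j => TB (u j / 2) (z j / 2) (χ / 2)
        ((log (cos (z j / 2 + χ / 2))).re + (log (cos (z j / 2 - χ / 2))).re)
        (f j) (g j) (F j) (G j)), ← sum_add_distrib, ← add_assoc, ← sum_add_distrib]
    have e1 : ∑ j ∈ range n, (2 * LLv kf e 0 (p ((j + 1) % n)) (y ((j + 1) % n)) +
        (TB (u ((j + 1) % n) / 2) (z ((j + 1) % n) / 2) (χ / 2)
        ((log (cos (z ((j + 1) % n) / 2 + χ / 2))).re +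
          (log (cos (z ((j + 1) % n) / 2 - χ / 2))).re)
        (f ((j + 1) % n)) (g ((j + 1) % n)) (F ((j + 1) % n)) (G ((j + 1) % n)) +
        TU (u j / 2) (z ((j + 1) % n) / 2) (χ / 2) ((log (cos (z ((j + 1) % n) / 2 + χ / 2))).re +
          (log (cos (z ((j + 1) % n) / 2 - χ / 2))).re) (f j) (g j) (F j) (G j))) = 0 := by
      refine sum_eq_zero fun j hj => ?_
      rw [mem_range] at hj
      have hk : (j + 1) % n < n := Nat.mod_lt _ (by omega)
      have hv := hy.vert j hj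
      have hLL := LLv_eq kf e (p ((j + 1) % n)) 0 (hp _ hk).1 (hp _ hk).2
        (y ((j + 1) % n)) (hs _ hk) (hy.tree _ hk)
      have hwt := (wt_eq _ _ (hs _ hk)).1
      have hlg := elv_lg kf e 0 (p ((j + 1) % n)) (y ((j + 1) % n)) (hs _ hk)
      rw [← elv_map kf e 0 _ _ (hs _ hk), hwt] at hv
      have he := h.lgr hj
      try beta_reduce at he
      rw [← hlg, hzj] at he
      have e3 : 2 * (z ((j + 1) % n) / 2) = z ((j + 1) % n) := by ring
      have key := vertexD hv (elv_pos kf e 0 _ _ (hs _ hk) (hy.tree _ hk))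
        (a := u j / 2) (a' := u ((j + 1) % n) / 2) (b := z ((j + 1) % n) / 2) (c := χ / 2)
        (by rw [e3] at he ⊢; exact he)
        ((log (cos (z ((j + 1) % n) / 2 + χ / 2))).re +
          (log (cos (z ((j + 1) % n) / 2 - χ / 2))).re)
      rw [hLL, hzj]
      rw [e3] at key
      linarith
    have e1' : ∑ j ∈ range n, 2 * LLv kf e 0 (p ((j + 1) % n)) (y ((j + 1) % n)) +
        ∑ j ∈ range n, (TB (u ((j + 1) % n) / 2) (z ((j + 1) % n) / 2) (χ / 2)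
        ((log (cos (z ((j + 1) % n) / 2 + χ / 2))).re +
          (log (cos (z ((j + 1) % n) / 2 - χ / 2))).re)
        (f ((j + 1) % n)) (g ((j + 1) % n)) (F ((j + 1) % n)) (G ((j + 1) % n)) +
        TU (u j / 2) (z ((j + 1) % n) / 2) (χ / 2) ((log (cos (z ((j + 1) % n) / 2 + χ / 2))).re +
          (log (cos (z ((j + 1) % n) / 2 - χ / 2))).re) (f j) (g j) (F j) (G j)) = 0 := by
      rw [← sum_add_distrib]
      exact e1
    rw [← sum_add_distrib] at e1'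
    rw [e1', zero_add]
    have e2 : ∀ j ∈ range n, TX (u j / 2) (z j / 2) (z ((j + 1) % n) / 2) (χ / 2) (f j) (g j) (F j)
        (G j) = (Pool.Agent.Y482.Chi.lcr (u j / 2) (χ / 2)).re *
          ((rlam (f 0) (g 0) (F 0) (G 0) - 4 * (χ / 2).re) / 2) +
        (-(χ / 2).im) * (rho (f j) (g j) (F j) (G j)) +
        (-2 * (χ / 2).im) * (Pool.Agent.Y482.Chi.lcr (u j / 2) (χ / 2)).im +
        ((χ / 2).im * (2 * (log (cos (z j / 2 + χ / 2))).im) -
        (χ / 2).im * (2 * (log (cos (z ((j + 1) % n) / 2 + χ / 2))).im)) := by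
      intro j hj
      rw [mem_range] at hj
      have := hR j hj
      rw [← this]
      unfold TX rlam rho
      ring
    rw [sum_congr rfl e2, sum_add_distrib, sum_add_distrib, sum_add_distrib, sum_sub_distrib,
      sum_succ_mod n hn (fun j => (χ / 2).im * (2 * (log (cos (z j / 2 + χ / 2))).im)), sub_self,
      add_zero, ← sum_mul, ← mul_sum, ← mul_sum, hy.fill]
    have he := congrArg Complex.im h.lcr
    have hf := congrArg Complex.re h.lcr
    rw [Complex.im_sum, im_I_mul] at he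
    rw [Complex.re_sum, re_I_mul] at hf
    have g1 : (2 * (m : ℂ) * (2 * (χ / 2)) + 2 * π).re = 2 * m * (2 * (χ / 2).re) + 2 * π := by
      simp
    have g2 : (2 * (m : ℂ) * (2 * (χ / 2)) + 2 * π).im = 2 * m * (2 * (χ / 2).im) := by
      simp
    rw [g1] at he
    rw [g2] at hf
    rw [← he, ← hf]
    ring
  rw [h2] at h1
  linarith

end

end

/-- GEODV: near `χ₀` the critical value is the maximal volume of the angle structures; general kinds
of the vertices other than the roots -/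
def S_GEODV : Prop := S_S0P → ∀ (ρ τ κ cc : ℝ) (s dl : ℂ → ℂ → ℂ), KD ρ τ κ cc s dl →
  ∀ (kf : Bool → ℕ → ℤ → ℕ) (cen : ℕ → ℂ) (S : ℕ → ℂ → ℂ → ℂ) (D : ℕ),
  (∀ n a, kf true n a = 0) → (∀ b n a, kf b n a < D) →
  (∀ b n a, kf b n a ≠ 0 → ∃ g : ℝ, 0 < g ∧ ∀ ψ φ : ℂ, ‖ψ‖ ≤ g → ‖φ - cen (kf b n a)‖ ≤ g →
    ∃ δ : ℂ, EFW (S (kf b n a)) ψ φ δ) →
  ∃ g : ℝ, 0 < g ∧ ∀ χ₀ : ℂ, Zr χ₀ → ∃ ε : ℝ, 0 < ε ∧ ∀ ρ₀ c C : ℝ, SDZ χ₀ ρ₀ c C szz dzz →
    ∀ (n : ℕ) (m : ℤ) (p : ℕ → PB) (χ : ℂ), 1 ≤ n →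
      (∀ j < n, CG kf cen S s ρ τ g 0 (p j) ∧ (p j).rz ∈ Rc ρ τ ∧ ‖(p j).rz‖ ≤ ε) →
      ‖χ - χ₀‖ ≤ ε →
      RCritF szz χ₀ ρ₀ n (fun j => (p j).wt) (fun j => gg kf S s 0 (p j)) m
        (fun j => (p j).rz) χ →
      IsGreatest {W : ℝ | ∃ (y : ℕ → AB) (f g F G : ℕ → Fl),
          (∀ j < n, (y j).shape = (p j).shape) ∧ DAng n m y f g F G ∧ dVol n y f g F G = W}
        (2 * π * (RVal3 szz n (fun j => (p j).wt) m (fun j => (p j).rz) χ +
          ∑ j ∈ range n, vg kf S s 0 (p j)).re)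

/-- **GEODV** -/
theorem geodv : S_GEODV := by
  intro hS0 ρ τ κ cc s dl hK kf cen S D ht hD hSD
  classical
  obtain ⟨g, hg0, hg⟩ := Pool.Agent.TH858.J1745.exists_g'
    (fun k g => (∃ b n a, kf b n a = k ∧ k ≠ 0) → ∀ ψ φ : ℂ, ‖ψ‖ ≤ g →
      ‖φ - cen k‖ ≤ g → ∃ δ : ℂ, EFW (S k) ψ φ δ)
    (fun k g g' hgg h h1 ψ φ a b => h h1 ψ φ (a.trans hgg) (b.trans hgg))
    (by
      intro k
      by_cases h : ∃ b n a, kf b n a = k ∧ k ≠ 0
      · obtain ⟨b, n, a, rfl, h0⟩ := h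
        obtain ⟨g, hg0, hg⟩ := hSD b n a h0
        exact ⟨g, hg0, fun _ => hg⟩
      · exact ⟨1, one_pos, fun h1 => absurd h1 h⟩) D
  obtain ⟨Dl, hDl⟩ : ∃ Dl : ℕ → ℂ → ℂ → ℂ, ∀ k ψ φ, (∃ δ : ℂ, EFW (S k) ψ φ δ) →
      EFW (S k) ψ φ (Dl k ψ φ) := by
    have : ∀ k ψ φ, ∃ δ : ℂ, (∃ δ : ℂ, EFW (S k) ψ φ δ) → EFW (S k) ψ φ δ := by
      intro k ψ φ
      by_cases h : ∃ δ : ℂ, EFW (S k) ψ φ δ
      · obtain ⟨δ, hδ⟩ := h
        exact ⟨δ, fun _ => hδ⟩
      · exact ⟨0, fun h1 => absurd h1 h⟩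
    choose Dl h using this
    exact ⟨Dl, h⟩
  obtain ⟨Q, hQd⟩ : ∃ Q : ℕ → Prop, Q = fun k => ∃ b n a, kf b n a = k ∧ k ≠ 0 := ⟨_, rfl⟩
  have hQ : ∀ b n a, kf b n a ≠ 0 → Q (kf b n a) := by
    intro b n a h
    rw [hQd]
    exact ⟨b, n, a, rfl, h⟩
  have hS' : ∀ k, Q k → ∀ ψ φ : ℂ, ‖ψ‖ ≤ g → ‖φ - cen k‖ ≤ g → EFW (S k) ψ φ (Dl k ψ φ) := by
    intro k hk ψ φ h1 h2
    rw [hQd] at hk
    have hkD : k < D := by
      obtain ⟨b, n, a, rfl, -⟩ := hk
      exact hD b n a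
    exact hDl k ψ φ (hg k hkD hk ψ φ h1 h2)
  refine ⟨g, hg0, fun χ₀ hZ => ?_⟩
  obtain ⟨ε₁, hε₁, hN⟩ := Pool.Agent.Y482.Cz.near hZ
  obtain ⟨Λ, hΛ⟩ := Pool.Agent.Y482.Cz.ex_prim
  refine ⟨min ε₁ (1 / 10), lt_min hε₁ (by norm_num), ?_⟩
  intro ρ₀ c C hS n m p χ hn hp hχ h
  have hz : ∀ j < n, ‖(p j).rz‖ ≤ ε₁ := fun j hj => (hp j hj).2.2.trans (min_le_left _ _)
  have hχ' : ‖χ - χ₀‖ ≤ ε₁ := hχ.trans (min_le_left _ _)
  have hi : ∀ j < n, _ := fun j hj => indv hK ht hQ hS' (p j) 0 (fun h => absurd rfl h)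
    (hp j hj).1 ⟨fun _ => ⟨(hp j hj).2.1, (hp j hj).2.2.trans (min_le_right _ _)⟩,
      fun h => absurd rfl h⟩
  set e := ee dl Dl with he
  have hg' : ∀ j < n, gg kf S s 0 (p j) = -(1 / (2 * π)) * lgv kf e 0 (p j) :=
    fun j hj => (hi j hj).1
  have hcr := crit_of hS0 hS hΛ hN h hg' hz hχ'
  have hval := val_of hS0 hS hΛ hN hn h hg' hz hχ'
  have hq : ∀ j < n, hpv kf e 0 (p j) ∧ lcv kf e 0 (p j) :=
    fun j hj => ⟨(hi j hj).2.1, (hi j hj).2.2.1⟩
  have hvol : dVol n (fun j => agv kf e 0 (p j))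
      (fun j => flA (2 * π * dzz (p j).rz (p ((j + 1) % n)).rz χ / 2) ((p j).rz / 2) (χ / 2))
      (fun j => flA (2 * π * dzz (p j).rz (p ((j + 1) % n)).rz χ / 2)
        (-((p ((j + 1) % n)).rz / 2)) (-(χ / 2)))
      (fun j => flB (2 * π * dzz (p j).rz (p ((j + 1) % n)).rz χ / 2) ((p j).rz / 2) (χ / 2))
      (fun j => flB (2 * π * dzz (p j).rz (p ((j + 1) % n)).rz χ / 2)
        (-((p ((j + 1) % n)).rz / 2)) (-(χ / 2))) =
      2 * π * (RVal3 szz n (fun j => (p j).wt) m (fun j => (p j).rz) χ +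
        ∑ j ∈ range n, vg kf S s 0 (p j)).re := by
    unfold dVol
    have e1 : ∑ j ∈ range n, ((flA (2 * π * dzz (p j).rz (p ((j + 1) % n)).rz χ / 2)
        ((p j).rz / 2) (χ / 2)).vol + (flA (2 * π * dzz (p j).rz (p ((j + 1) % n)).rz χ / 2)
        (-((p ((j + 1) % n)).rz / 2)) (-(χ / 2))).vol +
        (flB (2 * π * dzz (p j).rz (p ((j + 1) % n)).rz χ / 2) ((p j).rz / 2) (χ / 2)).vol +
        (flB (2 * π * dzz (p j).rz (p ((j + 1) % n)).rz χ / 2)
        (-((p ((j + 1) % n)).rz / 2)) (-(χ / 2))).vol) =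
        ∑ j ∈ range n, bv (2 * π * dzz (p j).rz (p ((j + 1) % n)).rz χ / 2) ((p j).rz / 2)
          ((p ((j + 1) % n)).rz / 2) (χ / 2) := rfl
    have e2 : ∑ j ∈ range n, (agv kf e 0 (p j)).vol = ∑ j ∈ range n, hsv kf e 0 (p j) :=
      sum_congr rfl fun j hj => agv_vol kf e _ 0 (hq j (mem_range.1 hj)).1
    have e3 : ∑ j ∈ range n, 2 * π * (vg kf S s 0 (p j)).re =
        ∑ j ∈ range n, (hsv kf e 0 (p j) + (p j).rz.im * (lgv kf e 0 (p j)).im) :=
      sum_congr rfl fun j hj => (hi j (mem_range.1 hj)).2.2.2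
    rw [sum_add_distrib, e1, e2, ← hval, Complex.add_re, Complex.re_sum, mul_add, mul_sum, e3,
      sum_add_distrib]
    ring
  rw [← hvol]
  constructor
  · exact ⟨_, _, _, _, _, fun j hj => agv_shape kf e (p j) 0,
      crit_angV hn hq hcr, rfl⟩
  · rintro W ⟨y, f, g, F, G, hs', hy, rfl⟩
    exact crit_maxV Pool.Agent.W120.VC.tet hn hq hcr hs' hy

end Pool.Agent.N566.PS
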