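import Pool.Agent.N566.PS.Geo
import Pool.Agent.Y481.DX.Geo4

/-!
# Rings of trees with small vertices: closed rings near `χ = 0`, rings with their axes

As `Pool.Agent.Y481.DX.Geo3` and `Geo4`, general kinds of the vertices of the trees.
-/

set_option autoImplicit false

namespace Pool.Agent.N566.PS

open Finset Filter Topology
open Complex (exp log cos sin I)
open Pool.Agent.W711.HT hiding XX
open Pool.Agent.W719.AR (Fl Gap)
open Pool.Agent.W709.VC (S_TET)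
open Pool.Agent.W737.AR (Lf ze vol_le)
open Pool.Agent.TH563.UV (Tb PB AB VC)
open Pool.Agent.TH563.CU (vol_eq)
open Pool.Agent.TH609.UV (fe wt_eq shape_cases)
open Pool.Agent.Y482 (sum_succ_mod)
open Pool.Agent.Y482.Chi (VX HX rho rlam TB TU TX flA flB bv lgr Lc lg_lc vertexX im_I_mul re_I_mul
  der2x den_ne pot3 hvX blk_vol eps)
open Pool.Agent.Y482.Cz (BG)
open Pool.Agent.Y482.Cv (cf cg cF cG lin block_leZ)
open Pool.Agent.Y472 (SD3 RVal3)
open Pool.Agent.Y481.DR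
open Pool.Agent.Y481.DX (CritV hx_edge vert_of crit_of3 val_of3 val_of0 tx_sum rlamD_const DAngA
  RCrit3F RCrit0F)
open Pool.Agent.N561 (CG VCG gg vg EFW)
open Pool.Agent.N561.G
open scoped Real

section

variable {kf : Bool → ℕ → ℤ → ℕ} {e : ℕ → ℕ → ℂ → ℂ → ℂ}

/-- the volume of the critical structure -/
lemma dvol_ofV {n : ℕ} {p : ℕ → PB} {χ : ℂ} {u : ℕ → ℂ} {S : ℕ → ℂ → ℂ → ℂ} {s : ℂ → ℂ → ℂ}
    {X : ℂ}
    (hq : ∀ j < n, hpv kf e 0 (p j) ∧ lcv kf e 0 (p j))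
    (h3 : ∀ j < n, 2 * π * (vg kf S s 0 (p j)).re = hsv kf e 0 (p j) + (p j).rz.im * (lgv kf e 0 (p j)).im)
    (hval : 2 * π * X.re + ∑ j ∈ range n, (p j).rz.im * (lgv kf e 0 (p j)).im = ∑ j ∈ range n,
      bv (u j / 2) ((p j).rz / 2) ((p ((j + 1) % n)).rz / 2) (χ / 2)) :
    dVol n (fun j => agv kf e 0 (p j)) (fun j => flA (u j / 2) ((p j).rz / 2) (χ / 2))
      (fun j => flA (u j / 2) (-((p ((j + 1) % n)).rz / 2)) (-(χ / 2)))
      (fun j => flB (u j / 2) ((p j).rz / 2) (χ / 2))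
      (fun j => flB (u j / 2) (-((p ((j + 1) % n)).rz / 2)) (-(χ / 2))) =
      2 * π * (X + ∑ j ∈ range n, vg kf S s 0 (p j)).re := by
  unfold dVol
  have e1 : ∑ j ∈ range n, ((flA (u j / 2) ((p j).rz / 2) (χ / 2)).vol +
      (flA (u j / 2) (-((p ((j + 1) % n)).rz / 2)) (-(χ / 2))).vol +
      (flB (u j / 2) ((p j).rz / 2) (χ / 2)).vol +
      (flB (u j / 2) (-((p ((j + 1) % n)).rz / 2)) (-(χ / 2))).vol) =
      ∑ j ∈ range n, bv (u j / 2) ((p j).rz / 2) ((p ((j + 1) % n)).rz / 2) (χ / 2) := rfl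
  have e2 : ∑ j ∈ range n, (agv kf e 0 (p j)).vol = ∑ j ∈ range n, hsv kf e 0 (p j) :=
    sum_congr rfl fun j hj => agv_vol kf e _ 0 (hq j (mem_range.1 hj)).1
  have e3 : ∑ j ∈ range n, 2 * π * (vg kf S s 0 (p j)).re =
      ∑ j ∈ range n, (hsv kf e 0 (p j) + (p j).rz.im * (lgv kf e 0 (p j)).im) :=
    sum_congr rfl fun j hj => h3 j (mem_range.1 hj)
  rw [sum_add_distrib, e1, e2, ← hval, Complex.add_re, Complex.re_sum, mul_add, mul_sum, e3,
    sum_add_distrib]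
  ring

/-- the case of equality for a tree -/
lemma agv_eq (p : PB) (k : ℕ) (hp : hpv kf e k p) (y : AB) (h : y.shape = p.shape)
    (hy : y.OK) (hv : y.vol = (agv kf e k p).vol - 2 * LLv kf e k p y) : y = agv kf e k p := by
  induction p generalizing y k with
  | vx b a z =>
    rcases shape_cases _ y h with ⟨b', a', z', h1, rfl⟩ | ⟨t, c, t', c', f, g, h1, -⟩
    · simp only [PB.vx.injEq] at h1
      obtain ⟨rfl, rfl, -⟩ := h1
      rfl
    · simp at h1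
  | br t c iht ihc =>
    rcases shape_cases _ y h with ⟨b', a', z', h1, -⟩ | ⟨t, c, t', c', f, g, h1, rfl, h2, h3⟩
    · simp at h1
    · simp only [PB.br.injEq] at h1
      obtain ⟨rfl, rfl⟩ := h1
      obtain ⟨k1, k2, k3, k4, k5, k6⟩ := hy
      obtain ⟨n1, n2, n3⟩ := hp
      have e1 := vol_LLv kf e Pool.Agent.W120.VC.tet _ k n1 t' h2 k1
      have e2 := vol_LLv kf e Pool.Agent.W120.VC.tet _ (kc kf c) n2 c' h3 k2
      have e3 := vol_le Pool.Agent.W120.VC.tet _ f (hw_symm n3).sr.1 k3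
      have e4 := vol_le Pool.Agent.W120.VC.tet _ g n3.sr.1 k4
      simp only [LLv, AB.vol, agv] at hv
      have q1 := iht k n1 t' h2 k1 (by linarith)
      have q2 := ihc (kc kf c) n2 c' h3 k2 (by linarith)
      have q3 := vol_eq _ f (hw_symm n3).sr.1 k3 (by linarith)
      have q4 := vol_eq _ g n3.sr.1 k4 (by linarith)
      rw [q1, q2, q3, q4]
      rfl

section

variable {n : ℕ} {p : ℕ → PB} {χ : ℂ} {u : ℕ → ℂ}

/-- the conditions at the vertices of the critical structure -/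
theorem crit_vertV (hp : ∀ j < n, hpv kf e 0 (p j))
    (h : CritV n (fun j => (p j).wt) (fun j => lgv kf e 0 (p j)) (fun j => (p j).rz) χ u) :
    ∀ j < n, VD (agv kf e 0 (p ((j + 1) % n))).wt (agv kf e 0 (p ((j + 1) % n))).fl
      (cf (fun j => (p j).rz) χ u j) (cg n (fun j => (p j).rz) χ u j)
      (cF (fun j => (p j).rz) χ u j) (cG n (fun j => (p j).rz) χ u j)
      (cf (fun j => (p j).rz) χ u ((j + 1) % n)) (cg n (fun j => (p j).rz) χ u ((j + 1) % n))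
      (cF (fun j => (p j).rz) χ u ((j + 1) % n)) (cG n (fun j => (p j).rz) χ u ((j + 1) % n)) := by
  intro j hj
  have h1 : (j + 1) % n < n := Nat.mod_lt _ (by omega)
  have he := h.lgr hj
  rw [show 2 * ((p ((j + 1) % n)).rz / 2) = (p ((j + 1) % n)).rz by ring] at he
  have := vdV (hp _ h1) (h.bz j hj) (h.bz _ h1) he
  rw [agv_wt]
  exact this

/-- the sum of the linear terms -/
lemma linD_sumV (hn : 1 ≤ n) (hp : ∀ j < n, hpv kf e 0 (p j) ∧ lcv kf e 0 (p j))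
    (h : CritV n (fun j => (p j).wt) (fun j => lgv kf e 0 (p j)) (fun j => (p j).rz) χ u)
    {y : ℕ → AB} {f g F G : ℕ → Fl} (hs : ∀ j < n, (y j).shape = (p j).shape)
    (ht : ∀ j < n, (y j).OK)
    (hv : ∀ j < n, VD (y ((j + 1) % n)).wt (y ((j + 1) % n)).fl (f j) (g j) (F j) (G j)
      (f ((j + 1) % n)) (g ((j + 1) % n)) (F ((j + 1) % n)) (G ((j + 1) % n))) :
    ∑ j ∈ range n, (2 * LLv kf e 0 (p j) (y j) + lin n (fun j => (p j).rz) χ u f g F G j) =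
      ∑ j ∈ range n, TX (u j / 2) ((p j).rz / 2) ((p ((j + 1) % n)).rz / 2) (χ / 2)
        (f j) (g j) (F j) (G j) := by
  obtain ⟨z, hz⟩ : ∃ z : ℕ → ℂ, z = fun j => (p j).rz := ⟨_, rfl⟩
  have hzj : ∀ j, (p j).rz = z j := fun j => by rw [hz]
  simp only [hzj] at h ⊢
  unfold lin
  rw [sum_add_distrib, sum_add_distrib, sum_add_distrib,
    ← sum_succ_mod n hn (fun j => 2 * LLv kf e 0 (p j) (y j)),
    ← sum_succ_mod n hn (fun j => TB (u j / 2) (z j / 2) (χ / 2)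
      ((log (cos (z j / 2 + χ / 2))).re + (log (cos (z j / 2 - χ / 2))).re)
      (f j) (g j) (F j) (G j)), ← sum_add_distrib, ← add_assoc, ← sum_add_distrib]
  have e1 : ∑ j ∈ range n, (2 * LLv kf e 0 (p ((j + 1) % n)) (y ((j + 1) % n)) +
      (TB (u ((j + 1) % n) / 2) (z ((j + 1) % n) / 2) (χ / 2)
      ((log (cos (z ((j + 1) % n) / 2 + χ / 2))).re +
        (log (cos (z ((j + 1) % n) / 2 - χ / 2))).re)
      (f ((j + 1) % n)) (g ((j + 1) % n)) (F ((j + 1) % n)) (G ((j + 1) % n)) +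
      TU (u j / 2) (z ((j + 1) % n) / 2) (χ / 2) ((log (cos (z ((j + 1) % n) / 2 + χ / 2))).re +
        (log (cos (z ((j + 1) % n) / 2 - χ / 2))).re) (f j) (g j) (F j) (G j))) = 0 := by
    refine sum_eq_zero fun j hj => ?_
    rw [mem_range] at hj
    have hk : (j + 1) % n < n := Nat.mod_lt _ (by omega)
    have hv := hv j hj
    have hLL := LLv_eq kf e (p ((j + 1) % n)) 0 (hp _ hk).1 (hp _ hk).2
      (y ((j + 1) % n)) (hs _ hk) (ht _ hk)
    have hwt := (wt_eq _ _ (hs _ hk)).1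
    have hlg := elv_lg kf e 0 (p ((j + 1) % n)) (y ((j + 1) % n)) (hs _ hk)
    rw [← elv_map kf e 0 _ _ (hs _ hk), hwt] at hv
    have he := h.lgr hj
    try beta_reduce at he
    rw [← hlg, hzj] at he
    have e3 : 2 * (z ((j + 1) % n) / 2) = z ((j + 1) % n) := by ring
    have key := vertexD hv (elv_pos kf e 0 _ _ (hs _ hk) (ht _ hk))
      (a := u j / 2) (a' := u ((j + 1) % n) / 2) (b := z ((j + 1) % n) / 2) (c := χ / 2)
      (by rw [e3] at he ⊢; exact he)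
      ((log (cos (z ((j + 1) % n) / 2 + χ / 2))).re +
        (log (cos (z ((j + 1) % n) / 2 - χ / 2))).re)
    rw [hLL, hzj]
    rw [e3] at key
    linarith
  have e1' : ∑ j ∈ range n, 2 * LLv kf e 0 (p ((j + 1) % n)) (y ((j + 1) % n)) +
      ∑ j ∈ range n, (TB (u ((j + 1) % n) / 2) (z ((j + 1) % n) / 2) (χ / 2)
      ((log (cos (z ((j + 1) % n) / 2 + χ / 2))).re +
        (log (cos (z ((j + 1) % n) / 2 - χ / 2))).re)
      (f ((j + 1) % n)) (g ((j + 1) % n)) (F ((j + 1) % n)) (G ((j + 1) % n)) +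
      TU (u j / 2) (z ((j + 1) % n) / 2) (χ / 2) ((log (cos (z ((j + 1) % n) / 2 + χ / 2))).re +
        (log (cos (z ((j + 1) % n) / 2 - χ / 2))).re) (f j) (g j) (F j) (G j)) = 0 := by
    rw [← sum_add_distrib]
    exact e1
  rw [← sum_add_distrib] at e1'
  rw [e1', zero_add]

/-- the structure of a critical configuration is the only one of maximal volume -/
theorem dmaxuV (hp : ∀ j < n, hpv kf e 0 (p j) ∧ lcv kf e 0 (p j))
    (hB : ∀ j < n, BG (u j / 2) ((p j).rz / 2) ((p ((j + 1) % n)).rz / 2) (χ / 2))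
    {y : ℕ → AB} {f g F G : ℕ → Fl} (hs : ∀ j < n, (y j).shape = (p j).shape)
    (ht : ∀ j < n, (y j).OK)
    (hpos : ∀ j < n, (f j).Pos ∧ (g j).Pos ∧ (F j).Pos ∧ (G j).Pos)
    (hdiag : ∀ j < n, (f j).b + (f j).c' + ((g j).b + (g j).c') = 2 * π ∧
      (F j).b + (F j).c' + ((G j).b + (G j).c') = 2 * π)
    (hl : ∑ j ∈ range n, (2 * LLv kf e 0 (p j) (y j) + lin n (fun j => (p j).rz) χ u f g F G j) = 0) :
    dVol n y f g F G ≤ dVol n (fun j => agv kf e 0 (p j)) (cf (fun j => (p j).rz) χ u)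
      (cg n (fun j => (p j).rz) χ u) (cF (fun j => (p j).rz) χ u)
      (cG n (fun j => (p j).rz) χ u) ∧
    (dVol n (fun j => agv kf e 0 (p j)) (cf (fun j => (p j).rz) χ u)
      (cg n (fun j => (p j).rz) χ u) (cF (fun j => (p j).rz) χ u)
      (cG n (fun j => (p j).rz) χ u) ≤ dVol n y f g F G → ∀ j < n, y j = agv kf e 0 (p j) ∧
        f j = cf (fun j => (p j).rz) χ u j ∧ g j = cg n (fun j => (p j).rz) χ u j ∧
        F j = cF (fun j => (p j).rz) χ u j ∧ G j = cG n (fun j => (p j).rz) χ u j) := by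
  obtain ⟨z, hz⟩ : ∃ z : ℕ → ℂ, z = fun j => (p j).rz := ⟨_, rfl⟩
  have hzj : ∀ j, (p j).rz = z j := fun j => by rw [hz]
  rw [← hz] at hl ⊢
  simp only [hzj] at hB
  have h1 : ∀ j < n, 0 ≤ (cf z χ u j).vol + (cg n z χ u j).vol + (cF z χ u j).vol +
      (cG n z χ u j).vol - lin n z χ u f g F G j -
      ((f j).vol + (g j).vol + (F j).vol + (G j).vol) :=
    fun j hj => (block_leZ (hB j hj) (hpos j hj) (hdiag j hj)).1
  have h2 : ∀ j < n, 0 ≤ (agv kf e 0 (p j)).vol - 2 * LLv kf e 0 (p j) (y j) - (y j).vol := by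
    intro j hj
    have := vol_LLv kf e Pool.Agent.W120.VC.tet (p j) 0 (hp j hj).1 (y j) (hs j hj)
      (ht j hj)
    linarith
  have hnn : ∀ j ∈ range n, 0 ≤ ((cf z χ u j).vol + (cg n z χ u j).vol + (cF z χ u j).vol +
      (cG n z χ u j).vol - lin n z χ u f g F G j -
      ((f j).vol + (g j).vol + (F j).vol + (G j).vol)) +
      ((agv kf e 0 (p j)).vol - 2 * LLv kf e 0 (p j) (y j) - (y j).vol) := by
    intro j hj
    rw [mem_range] at hj
    exact add_nonneg (h1 j hj) (h2 j hj)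
  have e : ∑ j ∈ range n, (((cf z χ u j).vol + (cg n z χ u j).vol + (cF z χ u j).vol +
      (cG n z χ u j).vol - lin n z χ u f g F G j -
      ((f j).vol + (g j).vol + (F j).vol + (G j).vol)) +
      ((agv kf e 0 (p j)).vol - 2 * LLv kf e 0 (p j) (y j) - (y j).vol)) =
      dVol n (fun j => agv kf e 0 (p j)) (cf z χ u) (cg n z χ u) (cF z χ u) (cG n z χ u) -
        dVol n y f g F G := by
    have hE : ∀ X : ℝ, X + ∑ j ∈ range n, (2 * LLv kf e 0 (p j) (y j) + lin n z χ u f g F G j) = X := by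
      intro X
      rw [hl, add_zero]
    rw [← hE (∑ j ∈ range n, _)]
    unfold dVol
    rw [← sum_add_distrib, ← sum_sub_distrib]
    refine sum_congr rfl fun j _ => ?_
    ring
  have h0 := sum_nonneg hnn
  refine ⟨by linarith, fun h j hj => ?_⟩
  have h3 := (sum_eq_zero_iff_of_nonneg hnn).1 (by linarith) j (mem_range.2 hj)
  have h4 := h1 j hj
  have h5 := h2 j hj
  refine ⟨agv_eq (p j) 0 (hp j hj).1 (y j) (hs j hj) (ht j hj) (by linarith), ?_⟩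
  exact (block_leZ (hB j hj) (hpos j hj) (hdiag j hj)).2 (by linarith)

end

section

variable {n : ℕ} {p : ℕ → PB} {u : ℕ → ℂ}

/-- the critical structure of the ring with its axis -/
theorem crit_angAV (hn : 1 ≤ n) (hp : ∀ j < n, hpv kf e 0 (p j) ∧ lcv kf e 0 (p j))
    (h : CritV n (fun j => (p j).wt) (fun j => lgv kf e 0 (p j)) (fun j => (p j).rz) 0 u) :
    DAngA n (fun j => agv kf e 0 (p j)) (cf (fun j => (p j).rz) 0 u)
      (cg n (fun j => (p j).rz) 0 u) (cF (fun j => (p j).rz) 0 u)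
      (cG n (fun j => (p j).rz) 0 u) := by
  refine ⟨fun j hj => (h.bz j hj).pos, ?_, ?_, crit_vertV (fun j hj => (hp j hj).1) h, ?_, ?_⟩
  · intro j hj
    have k := Pool.Agent.Y482.Cz.blkAng (h.bz j hj)
    exact ⟨k.dA, k.dB⟩
  · intro j hj
    exact agv_isok kf e _ 0 (hp j hj).1 (hp j hj).2
  · have q := Pool.Agent.Y482.Cz.blkAng (h.bz 0 (by omega))
    have q1 := q.TA
    have q2 := q.CAt
    have z0 : (0 / 2 : ℂ).re = 0 := by simp
    rw [z0] at q1 q2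
    unfold rlam cf cg cF cG
    linarith
  · obtain ⟨z, hz⟩ : ∃ z : ℕ → ℂ, z = fun j => (p j).rz := ⟨_, rfl⟩
    rw [← hz] at h ⊢
    have hr : ∀ j ∈ range n, rho (cf z 0 u j) (cg n z 0 u j) (cF z 0 u j) (cG n z 0 u j) =
        (2 * (log (cos (z j / 2))).im - 2 * (log (cos (z ((j + 1) % n) / 2))).im) := by
      intro j hj
      rw [mem_range] at hj
      obtain ⟨-, -, c3⟩ := Pool.Agent.Y482.Cz.blkCr (h.bz j hj)
      rw [zero_div, Pool.Agent.Y482.Cv.lcr0] at c3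
      simp only [add_zero, Complex.zero_im, mul_zero, zero_add] at c3
      unfold rho cf cg cF cG
      simp only [zero_div]
      linarith
    rw [sum_congr rfl hr, sum_sub_distrib,
      sum_succ_mod n hn (fun j => 2 * (log (cos (z j / 2))).im), sub_self]

/-- uniqueness, the ring with its axis -/
theorem uniAV (hn : 1 ≤ n) (hp : ∀ j < n, hpv kf e 0 (p j) ∧ lcv kf e 0 (p j))
    (h : CritV n (fun j => (p j).wt) (fun j => lgv kf e 0 (p j)) (fun j => (p j).rz) 0 u)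
    {y : ℕ → AB} {f g F G : ℕ → Fl} (hs : ∀ j < n, (y j).shape = (p j).shape)
    (hy : DAngA n y f g F G) :
    dVol n y f g F G ≤ dVol n (fun j => agv kf e 0 (p j)) (cf (fun j => (p j).rz) 0 u)
      (cg n (fun j => (p j).rz) 0 u) (cF (fun j => (p j).rz) 0 u)
      (cG n (fun j => (p j).rz) 0 u) ∧
    (dVol n (fun j => agv kf e 0 (p j)) (cf (fun j => (p j).rz) 0 u)
      (cg n (fun j => (p j).rz) 0 u) (cF (fun j => (p j).rz) 0 u)
      (cG n (fun j => (p j).rz) 0 u) ≤ dVol n y f g F G → ∀ j < n, y j = agv kf e 0 (p j) ∧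
        f j = cf (fun j => (p j).rz) 0 u j ∧ g j = cg n (fun j => (p j).rz) 0 u j ∧
        F j = cF (fun j => (p j).rz) 0 u j ∧ G j = cG n (fun j => (p j).rz) 0 u j) := by
  refine dmaxuV hp h.bz hs hy.tree hy.pos hy.diag ?_
  rw [linD_sumV hn hp h hs hy.tree hy.vert]
  refine sum_eq_zero fun j hj => ?_
  unfold TX
  rw [zero_div, Pool.Agent.Y482.Cv.lcr0]
  simp

/-- uniqueness, closed ring -/
theorem uniDV {m : ℤ} {χ : ℂ} (hn : 1 ≤ n)
    (hp : ∀ j < n, hpv kf e 0 (p j) ∧ lcv kf e 0 (p j))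
    (h : CritD n (fun j => (p j).wt) (fun j => lgv kf e 0 (p j)) m (fun j => (p j).rz) χ u)
    {y : ℕ → AB} {f g F G : ℕ → Fl} (hs : ∀ j < n, (y j).shape = (p j).shape)
    (hy : DAng n m y f g F G) :
    dVol n y f g F G ≤ dVol n (fun j => agv kf e 0 (p j)) (cf (fun j => (p j).rz) χ u)
      (cg n (fun j => (p j).rz) χ u) (cF (fun j => (p j).rz) χ u)
      (cG n (fun j => (p j).rz) χ u) ∧
    (dVol n (fun j => agv kf e 0 (p j)) (cf (fun j => (p j).rz) χ u)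
      (cg n (fun j => (p j).rz) χ u) (cF (fun j => (p j).rz) χ u)
      (cG n (fun j => (p j).rz) χ u) ≤ dVol n y f g F G → ∀ j < n, y j = agv kf e 0 (p j) ∧
        f j = cf (fun j => (p j).rz) χ u j ∧ g j = cg n (fun j => (p j).rz) χ u j ∧
        F j = cF (fun j => (p j).rz) χ u j ∧ G j = cG n (fun j => (p j).rz) χ u j) := by
  refine dmaxuV hp h.bz hs hy.tree hy.pos hy.diag ?_
  rw [linD_sumV hn hp h.toV hs hy.tree hy.vert]
  exact tx_sum hn h (rlamD_const hy.pos hy.diag hy.vert) hy.fill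

end

end

/-- everything that is needed about the critical configurations of a tree of the ring -/
def KInd (kf : Bool → ℕ → ℤ → ℕ) (cen : ℕ → ℂ) (S : ℕ → ℂ → ℂ → ℂ) (s : ℂ → ℂ → ℂ) (ρ τ g : ℝ)
    (e : ℕ → ℕ → ℂ → ℂ → ℂ) : Prop :=
  ∀ p : PB, CG kf cen S s ρ τ g 0 p → p.rz ∈ Rc ρ τ → ‖p.rz‖ ≤ 1 / 10 →
    gg kf S s 0 p = -(1 / (2 * π)) * lgv kf e 0 p ∧ hpv kf e 0 p ∧ lcv kf e 0 p ∧
    2 * π * (vg kf S s 0 p).re = hsv kf e 0 p + p.rz.im * (lgv kf e 0 p).im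

theorem kind_of {ρ τ κ c : ℝ} {s dl : ℂ → ℂ → ℂ} (hK : KD ρ τ κ c s dl)
    {kf : Bool → ℕ → ℤ → ℕ} {cen : ℕ → ℂ} (ht : ∀ n a, kf true n a = 0)
    {S Dl : ℕ → ℂ → ℂ → ℂ} {Q : ℕ → Prop} {g : ℝ} (hQ : ∀ b n a, kf b n a ≠ 0 → Q (kf b n a))
    (hS : ∀ k, Q k → ∀ ψ φ : ℂ, ‖ψ‖ ≤ g → ‖φ - cen k‖ ≤ g → EFW (S k) ψ φ (Dl k ψ φ)) :
    KInd kf cen S s ρ τ g (ee dl Dl) := fun p h1 h2 h3 =>
  indv hK ht hQ hS p 0 (fun h => absurd rfl h) h1 ⟨fun _ => ⟨h2, h3⟩, fun h => absurd rfl h⟩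

section

variable {kf : Bool → ℕ → ℤ → ℕ} {cen : ℕ → ℂ} {S : ℕ → ℂ → ℂ → ℂ} {s : ℂ → ℂ → ℂ} {ρ τ g : ℝ}
  {e : ℕ → ℕ → ℂ → ℂ → ℂ} {ρ₀ c C : ℝ} {s3 dl3 : ℂ → ℂ → ℂ → ℂ}

/-- **GEOD3**, general kinds -/
theorem geod3V (hI : KInd kf cen S s ρ τ g e) (hS : SD3 ρ₀ c C s3 dl3) {n : ℕ} {m : ℤ}
    {p : ℕ → PB} {χ : ℂ} (hn : 1 ≤ n)
    (hp : ∀ j < n, CG kf cen S s ρ τ g 0 (p j) ∧ (p j).rz ∈ Rc ρ τ) (hχ : ‖χ‖ < 1 / 10)
    (h : RCrit3F s3 ρ₀ n (fun j => (p j).wt) (fun j => gg kf S s 0 (p j)) m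
      (fun j => (p j).rz) χ) :
    IsGreatest {W : ℝ | ∃ (y : ℕ → AB) (f g F G : ℕ → Fl), (∀ j < n, (y j).shape = (p j).shape) ∧
        DAng n m y f g F G ∧ dVol n y f g F G = W}
      (2 * π * (RVal3 s3 n (fun j => (p j).wt) m (fun j => (p j).rz) χ +
        ∑ j ∈ range n, vg kf S s 0 (p j)).re) := by
  have hz : ∀ j < n, ‖(p j).rz‖ ≤ 1 / 10 := fun j hj => (h.2.2.2.1 j hj).2.2.1
  have hi : ∀ j < n, _ := fun j hj => hI (p j) (hp j hj).1 (hp j hj).2 (hz j hj)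
  have hg : ∀ j < n, gg kf S s 0 (p j) = -(1 / (2 * π)) * lgv kf e 0 (p j) :=
    fun j hj => (hi j hj).1
  have hcr := crit_of3 hS h hg hχ
  have hval := val_of3 hS hn h hg hχ
  have hq : ∀ j < n, hpv kf e 0 (p j) ∧ lcv kf e 0 (p j) :=
    fun j hj => ⟨(hi j hj).2.1, (hi j hj).2.2.1⟩
  rw [← dvol_ofV hq (fun j hj => (hi j hj).2.2.2) hval]
  constructor
  · exact ⟨_, _, _, _, _, fun j hj => agv_shape kf e (p j) 0, crit_angV hn hq hcr, rfl⟩
  · rintro W ⟨y, f, g, F, G, hs', hy, rfl⟩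
    exact crit_maxV Pool.Agent.W120.VC.tet hn hq hcr hs' hy

/-- the facts at a critical configuration of the ring with its axis -/
lemma axis_factsV (hI : KInd kf cen S s ρ τ g e) (hS : SD3 ρ₀ c C s3 dl3) {n : ℕ}
    {p : ℕ → PB} (hn : 1 ≤ n)
    (hp : ∀ j < n, CG kf cen S s ρ τ g 0 (p j) ∧ (p j).rz ∈ Rc ρ τ)
    (h : RCrit0F s3 ρ₀ n (fun j => (p j).wt) (fun j => gg kf S s 0 (p j)) (fun j => (p j).rz))
    {u : ℕ → ℂ} (hu : u = fun j => 2 * π * dl3 (p j).rz (p ((j + 1) % n)).rz 0) :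
    (∀ j < n, hpv kf e 0 (p j) ∧ lcv kf e 0 (p j)) ∧
    CritV n (fun j => (p j).wt) (fun j => lgv kf e 0 (p j)) (fun j => (p j).rz) 0 u ∧
    dVol n (fun j => agv kf e 0 (p j)) (cf (fun j => (p j).rz) 0 u)
      (cg n (fun j => (p j).rz) 0 u) (cF (fun j => (p j).rz) 0 u)
      (cG n (fun j => (p j).rz) 0 u) =
      2 * π * (Pool.Agent.Y482.Ph.RVal0 s3 n (fun j => (p j).wt) (fun j => (p j).rz) +
        ∑ j ∈ range n, vg kf S s 0 (p j)).re := by
  have m0 : (0 : ℂ) ∈ Rc ρ₀ ρ₀ := by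
    constructor
    · simpa using hS.hρ.1
    · simpa using hS.hρ.1
  have hz : ∀ j < n, ‖(p j).rz‖ ≤ 1 / 10 := fun j hj => (h j hj).2.2.1
  have hi : ∀ j < n, _ := fun j hj => hI (p j) (hp j hj).1 (hp j hj).2 (hz j hj)
  have hg : ∀ j < n, gg kf S s 0 (p j) = -(1 / (2 * π)) * lgv kf e 0 (p j) :=
    fun j hj => (hi j hj).1
  have hq : ∀ j < n, hpv kf e 0 (p j) ∧ lcv kf e 0 (p j) :=
    fun j hj => ⟨(hi j hj).2.1, (hi j hj).2.2.1⟩
  have hv : CritV n (fun j => (p j).wt) (fun j => lgv kf e 0 (p j)) (fun j => (p j).rz) 0 u := by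
    refine ⟨?_, ?_⟩
    · intro j hj
      have h1 : (j + 1) % n < n := Nat.mod_lt _ (by omega)
      obtain ⟨m1, i1, n1, -⟩ := h j hj
      obtain ⟨m2, i2, n2, -⟩ := h _ h1
      rw [hu]
      exact Pool.Agent.Y482.Cv.bg_of_bx (hx_edge hS m1 i1 n1 m2 i2 n2 m0 (by simp)).bx.2
    · intro j hj
      rw [hu]
      exact vert_of hS (z := fun j => (p j).rz) (a := fun j => (p j).wt) m0 hg h hj
  refine ⟨hq, hv, ?_⟩
  have hval := val_of0 hS hn h hg m0
  exact dvol_ofV (u := u) (χ := 0) hq (fun j hj => (hi j hj).2.2.2) (by rw [hu]; exact hval)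

/-- **GEODA**, general kinds -/
theorem geodaV (hI : KInd kf cen S s ρ τ g e) (hS : SD3 ρ₀ c C s3 dl3) {n : ℕ}
    {p : ℕ → PB} (hn : 1 ≤ n)
    (hp : ∀ j < n, CG kf cen S s ρ τ g 0 (p j) ∧ (p j).rz ∈ Rc ρ τ)
    (h : RCrit0F s3 ρ₀ n (fun j => (p j).wt) (fun j => gg kf S s 0 (p j)) (fun j => (p j).rz)) :
    IsGreatest {W : ℝ | ∃ (y : ℕ → AB) (f g F G : ℕ → Fl), (∀ j < n, (y j).shape = (p j).shape) ∧
        DAngA n y f g F G ∧ dVol n y f g F G = W}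
      (2 * π * (Pool.Agent.Y482.Ph.RVal0 s3 n (fun j => (p j).wt) (fun j => (p j).rz) +
        ∑ j ∈ range n, vg kf S s 0 (p j)).re) := by
  obtain ⟨hq, hv, hd⟩ := axis_factsV hI hS hn hp h rfl
  rw [← hd]
  constructor
  · exact ⟨_, _, _, _, _, fun j hj => agv_shape kf e (p j) 0, crit_angAV hn hq hv, rfl⟩
  · rintro W ⟨y, f, g, F, G, hs', hy, rfl⟩
    exact (uniAV hn hq hv hs' hy).1

end

end Pool.Agent.N566.PS
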